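import Pool.Agent.K7.H87.FJ7.Str
import Pool.Agent.K7.H87.FJ2.Rg

/-!
# The Farrell–Jones conjecture for groups of symmetric automorphisms
-/

set_option autoImplicit false
set_option linter.unusedSectionVars false

namespace Pool.Agent.K7.H87.FJ7

open Monoid Monoid.CoprodI
open Pool.Agent.Y110.FJ Pool.Agent.R684.FP
open Pool.Agent.R941.FJ (C_equiv C_le C_cyc)
open Pool.Agent.K7.H87.FJ2 (ext_solv)

variable {C : ∀ (G : Type) [Group G], Prop}

/-- cyclic extensions of a group with few automorphisms -/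
theorem hol (hC : ClosedE C) (hS : ∀ (S : Type) [Group S], Group.IsSolvable S → C S)
    {G A : Type} [Group G] [Group A] (Q : Subgroup (MulAut A)) (hA : C Q)
    (hQ : ∀ a : A, MulAut.conj a ∈ Q) (f : A →* G) (hf : Function.Injective f) (g : G)
    (hg : ∃ φ ∈ Q, ∀ a, g * f a * g⁻¹ = f (φ a)) : C ↥(f.range ⊔ Subgroup.zpowers g) := by
  -- all elements act on `A` by elements of `Q`
  have hact : ∀ x ∈ f.range ⊔ Subgroup.zpowers g, ∃ φ ∈ Q, ∀ a, x * f a * x⁻¹ = f (φ a) := by
    let K : Subgroup G :=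
      { carrier := {x | ∃ φ ∈ Q, ∀ a, x * f a * x⁻¹ = f (φ a)}
        one_mem' := ⟨1, one_mem _, fun a => by simp⟩
        mul_mem' := by
          rintro x y ⟨φ, hφ, h1⟩ ⟨ψ, hψ, h2⟩
          refine ⟨φ * ψ, mul_mem hφ hψ, fun a => ?_⟩
          rw [MulAut.mul_apply, ← h1, ← h2]
          group
        inv_mem' := by
          rintro x ⟨φ, hφ, h1⟩
          refine ⟨φ⁻¹, inv_mem hφ, fun a => ?_⟩
          have h2 := h1 (φ⁻¹ a)
          rw [MulAut.apply_inv_self] at h2
          rw [← h2]
          group }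
    have : f.range ⊔ Subgroup.zpowers g ≤ K := by
      rw [sup_le_iff, Subgroup.zpowers_le]
      refine ⟨?_, hg⟩
      rintro _ ⟨b, rfl⟩
      exact ⟨MulAut.conj b, hQ b, fun a => by rw [MulAut.conj_apply, map_mul, map_mul, map_inv]⟩
    exact fun x hx => this hx
  obtain ⟨B, hB⟩ : ∃ B, B = f.range ⊔ Subgroup.zpowers g := ⟨_, rfl⟩
  rw [← hB] at hact ⊢
  choose Φ hΦQ hΦ using hact
  have hle : f.range ≤ B := by rw [hB]; exact le_sup_left
  have hgB : g ∈ B := by rw [hB]; exact Subgroup.mem_sup_right (Subgroup.mem_zpowers g)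
  let N : Subgroup B := f.range.subgroupOf B
  have hN : N.Normal := by
    constructor
    rintro ⟨n, hn⟩ hnN ⟨b, hb⟩
    obtain ⟨a, rfl⟩ := Subgroup.mem_subgroupOf.1 hnN
    refine Subgroup.mem_subgroupOf.2 ?_
    show b * f a * b⁻¹ ∈ f.range
    rw [hΦ b hb a]
    exact ⟨_, rfl⟩
  -- the action
  have huniq : ∀ φ ψ : MulAut A, (∀ a, f (φ a) = f (ψ a)) → φ = ψ := fun φ ψ h =>
    MulEquiv.ext fun a => hf (h a)
  let act : B →* Q :=
    { toFun := fun b => ⟨Φ b b.2, hΦQ b b.2⟩
      map_one' := by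
        apply Subtype.ext
        apply huniq
        intro a
        rw [← hΦ]
        simp
      map_mul' := by
        intro b c
        apply Subtype.ext
        apply huniq
        intro a
        show f (Φ _ _ a) = f ((Φ b b.2 * Φ c c.2) a)
        rw [← hΦ, MulAut.mul_apply, ← hΦ, ← hΦ]
        show (b.1 * c.1) * f a * (b.1 * c.1)⁻¹ = _
        group }
  have hcyc : C (B ⧸ N) := by
    have h1 : ∀ x : B, QuotientGroup.mk' N x ∈ Subgroup.zpowers (QuotientGroup.mk' N ⟨g, hgB⟩) := by
      let K1 : Subgroup G := ((Subgroup.zpowers (QuotientGroup.mk' N ⟨g, hgB⟩)).comap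
        (QuotientGroup.mk' N)).map B.subtype
      have h2 : B ≤ K1 := by
        conv_lhs => rw [hB]
        rw [sup_le_iff, Subgroup.zpowers_le]
        constructor
        · intro n hn
          refine ⟨⟨n, hle hn⟩, ?_, rfl⟩
          show QuotientGroup.mk' N ⟨n, hle hn⟩ ∈ Subgroup.zpowers (QuotientGroup.mk' N ⟨g, hgB⟩)
          have h0 : QuotientGroup.mk' N ⟨n, hle hn⟩ = 1 :=
            (QuotientGroup.eq_one_iff _).2 (Subgroup.mem_subgroupOf.2 hn)
          rw [h0]
          exact one_mem _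
        · exact ⟨⟨g, hgB⟩, Subgroup.mem_zpowers _, rfl⟩
      intro x
      obtain ⟨y, hy, hyx⟩ := h2 x.2
      have : y = x := Subtype.ext hyx
      rw [← this]
      exact hy
    have h3 : (⊤ : Subgroup (B ⧸ N)) = Subgroup.zpowers (QuotientGroup.mk' N ⟨g, hgB⟩) := by
      symm
      rw [eq_top_iff]
      intro x _
      obtain ⟨b, rfl⟩ := QuotientGroup.mk'_surjective N x
      exact h1 b
    have h4 := C_cyc hC.base (QuotientGroup.mk' N ⟨g, hgB⟩)
    rw [← h3] at h4
    exact C_equiv hC.base Subgroup.topEquiv.symm h4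
  let F : B →* Q × (B ⧸ N) := act.prod (QuotientGroup.mk' N)
  refine ext_solv hC hS F.ker ?_ (hC.base.of_injective _ _ (QuotientGroup.kerLift F)
    (QuotientGroup.kerLift_injective F) (hC.base.prod _ _ hA hcyc))
  refine Group.isSolvable_of_comm fun a b => ?_
  apply Subtype.ext
  apply Subtype.ext
  show a.1.1 * b.1.1 = b.1.1 * a.1.1
  have ha : act a.1 = 1 := congrArg Prod.fst (show F a.1 = 1 from a.2)
  have hb : QuotientGroup.mk' N b.1 = 1 := congrArg Prod.snd (show F b.1 = 1 from b.2)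
  obtain ⟨c, hc⟩ := Subgroup.mem_subgroupOf.1 ((QuotientGroup.eq_one_iff _).1 hb)
  have h5 := hΦ a.1.1 a.1.2 c
  have h6 : Φ a.1.1 a.1.2 = 1 := congrArg Subtype.val ha
  rw [h6, MulAut.one_apply] at h5
  rw [← hc]
  exact mul_inv_eq_iff_eq_mul.1 h5

section step

variable {ι : Type} {M : ι → Type} [∀ i, Group (M i)] {Y : Type} [Group Y]
  (Ξ : Y →* MulAut (CoprodI M))

/-- a factor of the semidirect product -/
noncomputable def inf (i : ι) : M i →* CoprodI M ⋊[Ξ] Y :=
  (SemidirectProduct.inl : CoprodI M →* CoprodI M ⋊[Ξ] Y).comp of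

theorem inf_injective (i : ι) : Function.Injective (inf Ξ i) :=
  SemidirectProduct.inl_injective.comp (of_injective i)

theorem inf_free : IsFreeProd (SemidirectProduct.rightHom : CoprodI M ⋊[Ξ] Y →* Y).ker
    (fun i => (inf Ξ i).range) := by
  constructor
  · rw [← SemidirectProduct.range_inl_eq_ker_rightHom]
    have h1 := range_eq_iSup (G := M) (inf Ξ)
    rw [← h1]
    congr 1
    apply ext_hom
    intro i
    rw [lift_comp_of]
    rfl
  · let e : ∀ i, M i ≃* ↥(inf Ξ i).range := fun i => MonoidHom.ofInjective (inf_injective Ξ i)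
    let F : CoprodI M →* CoprodI (fun i => ↥(inf Ξ i).range) :=
      lift fun i => of.comp (e i).toMonoidHom
    let F' : CoprodI (fun i => ↥(inf Ξ i).range) →* CoprodI M :=
      lift fun i => of.comp (e i).symm.toMonoidHom
    have hF : ∀ i (m : M i), F (of m) = of (M := fun i => ↥(inf Ξ i).range) (i := i) (e i m) :=
      fun i m => lift_of _ m
    have hF' : ∀ i (a : (inf Ξ i).range),
        F' (of (M := fun i => ↥(inf Ξ i).range) (i := i) a) = of ((e i).symm a) :=
      fun i a => lift_of (M := fun i => ↥(inf Ξ i).range) (i := i) _ a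
    have h1 : F.comp F' = MonoidHom.id _ := by
      apply ext_hom
      intro i
      apply MonoidHom.ext
      intro a
      show F (F' (of (M := fun i => ↥(inf Ξ i).range) (i := i) a)) =
        of (M := fun i => ↥(inf Ξ i).range) (i := i) a
      rw [hF', hF, MulEquiv.apply_symm_apply]
    have h2 : (lift (fun i => ((inf Ξ i).range).subtype) :
        CoprodI (fun i => ↥(inf Ξ i).range) →* CoprodI M ⋊[Ξ] Y) =
        (SemidirectProduct.inl : CoprodI M →* CoprodI M ⋊[Ξ] Y).comp F' := by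
      apply ext_hom
      intro i
      apply MonoidHom.ext
      intro a
      show (lift (fun i => ((inf Ξ i).range).subtype) :
        CoprodI (fun i => ↥(inf Ξ i).range) →* CoprodI M ⋊[Ξ] Y)
          (of (M := fun i => ↥(inf Ξ i).range) (i := i) a) =
        SemidirectProduct.inl (F' (of (M := fun i => ↥(inf Ξ i).range) (i := i) a))
      rw [hF', lift_of (M := fun i => ↥(inf Ξ i).range) (i := i)]
      show a.1 = inf Ξ i ((e i).symm a)
      have h3 : (e i ((e i).symm a)).1 = a.1 := by rw [MulEquiv.apply_symm_apply]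
      exact h3.symm
    rw [h2]
    refine SemidirectProduct.inl_injective.comp ?_
    exact Function.LeftInverse.injective (g := F) (DFunLike.congr_fun h1)

theorem step (hC : ClosedE C) (hF : FbC C) (hS : ∀ (S : Type) [Group S], Group.IsSolvable S → C S)
    (Q : ∀ i, Subgroup (MulAut (M i))) (hQ : ∀ i (x : M i), MulAut.conj x ∈ Q i)
    (hA : ∀ i, C (Q i)) (hΞ : ∀ y, Ξ y ∈ SymQ Q hQ) (hY : C Y) : C (CoprodI M ⋊[Ξ] Y) := by
  have hN : C ((CoprodI M ⋊[Ξ] Y) ⧸ (SemidirectProduct.rightHom : CoprodI M ⋊[Ξ] Y →* Y).ker) :=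
    C_equiv hC.base (QuotientGroup.quotientKerEquivOfSurjective _
      SemidirectProduct.rightHom_surjective) hY
  have hconj : ∀ (g : CoprodI M ⋊[Ξ] Y) (i : ι), ∃ c : CoprodI M, ∃ φ ∈ Q i, ∀ x : M i,
      g * inf Ξ i x * g⁻¹ = SemidirectProduct.inl (c * of (φ x) * c⁻¹) := by
    intro g i
    obtain ⟨c, φ, hφ, h⟩ := hΞ g.right i
    refine ⟨g.left * c, φ, hφ, fun x => ?_⟩
    have h1 : g = SemidirectProduct.inl g.left * SemidirectProduct.inr g.right :=
      (SemidirectProduct.inl_left_mul_inr_right g).symm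
    have h2 : (SemidirectProduct.inr g.right : CoprodI M ⋊[Ξ] Y) * inf Ξ i x *
        (SemidirectProduct.inr g.right)⁻¹ = SemidirectProduct.inl (Ξ g.right (of x)) := by
      rw [SemidirectProduct.inl_aut, map_inv]
      rfl
    have h3 : g * inf Ξ i x * g⁻¹ = SemidirectProduct.inl g.left *
        ((SemidirectProduct.inr g.right : CoprodI M ⋊[Ξ] Y) * inf Ξ i x *
        (SemidirectProduct.inr g.right)⁻¹) * (SemidirectProduct.inl g.left)⁻¹ := by
      conv_lhs => rw [h1]
      group
    rw [h3, h2, h, ← map_inv, ← map_mul, ← map_mul]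
    congr 1
    group
  refine main_all hC hF hN (fun i => (inf Ξ i).range) Set.univ (inf_free Ξ)
    (fun i hi => absurd trivial hi) ?_ ?_
  · intro i _ g
    obtain ⟨c, φ, hφ, h⟩ := hconj g i
    refine ⟨i, trivial, SemidirectProduct.inl c⁻¹, ?_, ?_⟩
    · rw [← SemidirectProduct.range_inl_eq_ker_rightHom]
      exact ⟨_, rfl⟩
    · intro x
      constructor
      · rintro ⟨m, rfl⟩
        refine ⟨φ m, ?_⟩
        rw [h, ← map_inv, ← map_mul, ← map_mul]
        show SemidirectProduct.inl (of (φ m)) = _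
        congr 1
        group
      · rintro ⟨m, hm⟩
        refine ⟨φ⁻¹ m, ?_⟩
        have h4 := h (φ⁻¹ m)
        rw [MulAut.apply_inv_self] at h4
        have h5 : g * x * g⁻¹ = SemidirectProduct.inl (c * of m * c⁻¹) := by
          have h6 : g * x * g⁻¹ = (SemidirectProduct.inl c⁻¹)⁻¹ *
              (SemidirectProduct.inl c⁻¹ * (g * x * g⁻¹) * (SemidirectProduct.inl c⁻¹)⁻¹) *
              SemidirectProduct.inl c⁻¹ := by group
          rw [h6, ← hm]
          show (SemidirectProduct.inl c⁻¹)⁻¹ * SemidirectProduct.inl (of m) * _ = _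
          rw [← map_inv, ← map_mul, ← map_mul, inv_inv]
        have h7 : g * inf Ξ i (φ⁻¹ m) * g⁻¹ = g * x * g⁻¹ := h4.trans h5.symm
        exact mul_left_cancel (mul_right_cancel h7)
  · intro i _ g hg
    by_cases htr : ∀ m : M i, m = 1
    · -- trivial factor
      refine hS _ ?_
      have h1 : (inf Ξ i).range = ⊥ := by
        rw [eq_bot_iff]
        rintro _ ⟨m, rfl⟩
        rw [htr m, map_one]
        exact one_mem _
      rw [h1, bot_sup_eq]
      exact Group.isSolvable_of_comm fun a b => by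
        obtain ⟨m, hm⟩ := Subgroup.mem_zpowers_iff.1 a.2
        obtain ⟨n, hn⟩ := Subgroup.mem_zpowers_iff.1 b.2
        apply Subtype.ext
        show a.1 * b.1 = b.1 * a.1
        rw [← hm, ← hn, zpow_mul_comm]
    · push Not at htr
      obtain ⟨m0, hm0⟩ := htr
      refine hol hC hS (Q i) (hA i) (hQ i) (inf Ξ i) (inf_injective Ξ i) g ?_
      obtain ⟨c, φ, hφ, h⟩ := hconj g i
      have h1 : g * inf Ξ i (φ⁻¹ m0) * g⁻¹ ∈ (inf Ξ i).range := (hg _).1 ⟨_, rfl⟩
      rw [h, MulAut.apply_inv_self] at h1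
      obtain ⟨n, hn⟩ := h1
      have h2 : c * of m0 * c⁻¹ = of n := by
        apply SemidirectProduct.inl_injective (φ := Ξ)
        exact hn.symm
      obtain ⟨b, hb⟩ := malnormal hm0 h2
      refine ⟨MulAut.conj b * φ, mul_mem (hQ i b) hφ, fun a => ?_⟩
      rw [h, hb]
      show _ = SemidirectProduct.inl (of _)
      rw [MulAut.mul_apply, MulAut.conj_apply]
      simp only [map_mul, map_inv]

end step

section main

variable {M : Fin 3 → Type} [∀ i, Group (M i)] [∀ i, Nontrivial (M i)]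

theorem ch_fac_mem (Q : ∀ i, Subgroup (MulAut (M i))) (hQ : ∀ i (x : M i), MulAut.conj x ∈ Q i)
    (φ : ∀ i, Q i) : facQ Q φ ∈ SymQ Q hQ := fun i =>
  ⟨1, (φ i).1, (φ i).2, fun x => by rw [facQ_of]; simp⟩

/-- **the main theorem** -/
theorem main_iff (hC : ClosedE C) (hF : FbC C)
    (hS : ∀ (S : Type) [Group S], Group.IsSolvable S → C S)
    (Q : ∀ i, Subgroup (MulAut (M i))) (hQ : ∀ i (x : M i), MulAut.conj x ∈ Q i) :
    C (SymQ Q hQ) ↔ ∀ i, C (Q i) := by
  classical
  constructor
  · intro h i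
    refine hC.base.of_injective _ _ (((facQ Q).comp (MonoidHom.mulSingle (fun i => Q i) i)).codRestrict
      (SymQ Q hQ) fun q => ch_fac_mem Q hQ _) ?_ h
    intro a b hab
    have h1 : facQ Q (Pi.mulSingle i a) = facQ Q (Pi.mulSingle i b) := congrArg Subtype.val hab
    apply Subtype.ext
    apply MulEquiv.ext
    intro x
    apply of_injective (M := M) i
    have h2 := facQ_of Q (Pi.mulSingle i a) x
    have h3 := facQ_of Q (Pi.mulSingle i b) x
    rw [Pi.mulSingle_eq_same] at h2 h3
    rw [← h2, ← h3, h1]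
  · intro h
    have h1 : C (∀ i, Q i) := Pool.Agent.R615.SC.pi_finite hC.base (Fin 3) (fun i => Q i) h
    have h2 : C (E1 Q) := step (facQ Q) hC hF hS Q hQ h (ch_fac_mem Q hQ) h1
    have h3 : C (E2 Q) := by
      refine step (Xi Q) hC hF hS Q hQ h ?_ h2
      intro y
      have h4 : Xi Q y = Th Q (SemidirectProduct.inr y) := by
        rw [Th_apply]
        show _ = MulAut.conj (1 : CoprodI M) * (lift ch y.left * facQ Q y.right)
        rw [map_one, one_mul]
        rfl
      rw [h4, ← Th_range Q hQ]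
      exact ⟨_, rfl⟩
    exact C_equiv hC.base (equivSym Q hQ) h3

end main

end Pool.Agent.K7.H87.FJ7
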