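import Pool.Agent.K7.H87.FJ7.Cls

/-!
# Outer automorphisms and permutations of the factors
-/

set_option autoImplicit false
set_option linter.unusedSectionVars false

namespace Pool.Agent.K7.H87.FJ7

open Monoid Monoid.CoprodI
open Pool.Agent.Y110.FJ Pool.Agent.R684.FP
open Pool.Agent.R941.FJ (C_equiv C_le C_cyc)

variable {C : ∀ (G : Type) [Group G], Prop}

section perm

variable {ι : Type} {M : ι → Type} [∀ i, Group (M i)]

/-- `α` maps the factor `M i` onto the conjugate of the factor `M j` by `c` -/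
def Pos2 (α : MulAut (CoprodI M)) (i j : ι) (c : CoprodI M) : Prop :=
  ∀ x, x ∈ R M i ↔ c⁻¹ * α x * c ∈ R M j

theorem Pos2.mul {α β : MulAut (CoprodI M)} {i j k : ι} {c d : CoprodI M} (ha : Pos2 α j k c)
    (hb : Pos2 β i j d) : Pos2 (α * β) i k (α d * c) := by
  intro x
  rw [hb x, ha]
  have : c⁻¹ * α (d⁻¹ * β x * d) * c = (α d * c)⁻¹ * (α * β) x * (α d * c) := by
    rw [MulAut.mul_apply, map_mul, map_mul, map_inv]
    group
  rw [this]

theorem Pos2.inv {α : MulAut (CoprodI M)} {i j : ι} {c : CoprodI M} (ha : Pos2 α i j c) :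
    Pos2 α⁻¹ j i (α⁻¹ c⁻¹) := by
  intro x
  have h := ha ((α⁻¹ c⁻¹)⁻¹ * α⁻¹ x * α⁻¹ c⁻¹)
  rw [h]
  have : c⁻¹ * α ((α⁻¹ c⁻¹)⁻¹ * α⁻¹ x * α⁻¹ c⁻¹) * c = x := by
    rw [map_mul, map_mul, map_inv, MulAut.apply_inv_self, MulAut.apply_inv_self]
    group
  rw [this]

/-- the automorphisms that permute the conjugacy classes of the factors -/
def PermAut (M : ι → Type) [∀ i, Group (M i)] : Subgroup (MulAut (CoprodI M)) where
  carrier := {α | ∃ σ : Equiv.Perm ι, ∀ i, ∃ c, ∀ x, x ∈ R M i ↔ c⁻¹ * α x * c ∈ R M (σ i)}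
  one_mem' := ⟨1, fun i => ⟨1, Pos.one i⟩⟩
  mul_mem' := by
    rintro α β ⟨σ, ha⟩ ⟨τ, hb⟩
    refine ⟨σ * τ, fun i => ?_⟩
    obtain ⟨d, hd⟩ := hb i
    obtain ⟨c, hc⟩ := ha (τ i)
    exact ⟨_, Pos2.mul (j := τ i) hc hd⟩
  inv_mem' := by
    rintro α ⟨σ, ha⟩
    refine ⟨σ⁻¹, fun i => ?_⟩
    obtain ⟨c, hc⟩ := ha (σ⁻¹ i)
    have h1 : σ (σ⁻¹ i) = i := σ.apply_symm_apply i
    rw [h1] at hc
    exact ⟨_, Pos2.inv (i := σ⁻¹ i) hc⟩

theorem Pos.exists_aut {α : MulAut (CoprodI M)} {i : ι} {c : CoprodI M} (h : Pos α i c) :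
    ∃ φ : MulAut (M i), ∀ x, α (of x) = c * of (φ x) * c⁻¹ := by
  have h1 : Pos (MulAut.conj c⁻¹ * α) i 1 := by
    have h2 := (Pos.conj c⁻¹ i).mul h
    have h3 : MulAut.conj c⁻¹ c * c⁻¹ = 1 := by
      rw [MulAut.conj_apply]
      group
    rwa [h3] at h2
  obtain ⟨φ, hφ⟩ := exists_res h1
  refine ⟨φ, fun x => ?_⟩
  rw [← hφ, MulAut.mul_apply, MulAut.conj_apply]
  group

theorem mem_top (i : ι) (x : M i) :
    MulAut.conj x ∈ (fun i => (⊤ : Subgroup (MulAut (M i)))) i := trivial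

theorem perm_finite [Finite ι] (hC : ClosedE C)
    (h : C (SymQ (fun i => (⊤ : Subgroup (MulAut (M i)))) mem_top)) : C (PermAut M) := by
  classical
  obtain ⟨K, hK⟩ : ∃ K : Subgroup (PermAut M), K =
    (SymQ (fun i => (⊤ : Subgroup (MulAut (M i)))) mem_top).subgroupOf (PermAut M) := ⟨_, rfl⟩
  choose σ hσ using fun α : PermAut M => α.2
  have key : ∀ α β : PermAut M, σ α = σ β → α⁻¹ * β ∈ K := by
    intro α β hab
    rw [hK, Subgroup.mem_subgroupOf]
    intro i
    obtain ⟨c, hc⟩ := hσ α i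
    obtain ⟨d, hd⟩ := hσ β i
    rw [hab] at hc
    have h1 : Pos (α.1⁻¹ * β.1) i (α.1⁻¹ d * α.1⁻¹ c⁻¹) := (Pos2.inv (j := σ β i) hc).mul hd
    obtain ⟨φ, hφ⟩ := h1.exists_aut
    exact ⟨_, φ, trivial, hφ⟩
  have hfin : Finite (PermAut M ⧸ K) := by
    refine Finite.of_injective (fun q : PermAut M ⧸ K => σ q.out) ?_
    intro q r hqr
    have h1 := key q.out r.out hqr
    rw [← QuotientGroup.eq] at h1
    rwa [QuotientGroup.out_eq', QuotientGroup.out_eq'] at h1
  have hfi : K.FiniteIndex := Subgroup.finiteIndex_of_finite_quotient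
  refine hC.base.finiteIndex _ K hfi ?_
  rw [hK]
  refine hC.base.of_injective _ _ ((PermAut M).subtype.subgroupComap _) ?_ h
  intro a b hab
  apply Subtype.ext
  apply Subtype.ext
  exact congrArg (fun z : SymQ (fun i => (⊤ : Subgroup (MulAut (M i)))) mem_top => z.1) hab

theorem sym_le_perm (hQ : ∀ i (x : M i), MulAut.conj x ∈ (⊤ : Subgroup (MulAut (M i)))) :
    SymQ (fun i => (⊤ : Subgroup (MulAut (M i)))) hQ ≤ PermAut M := by
  intro α hα
  refine ⟨1, fun i => ?_⟩
  obtain ⟨c, φ, -, h⟩ := hα i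
  exact ⟨c, pos_of_eq h⟩

end perm

section main

variable {M : Fin 3 → Type} [∀ i, Group (M i)] [∀ i, Nontrivial (M i)]

/-- automorphisms that permute the classes of the factors -/
theorem perm_iff (hC : ClosedE C) (hF : FbC C)
    (hS : ∀ (S : Type) [Group S], Group.IsSolvable S → C S) :
    C (PermAut M) ↔ ∀ i, C (MulAut (M i)) := by
  have h0 := main_iff hC hF hS (fun i => (⊤ : Subgroup (MulAut (M i)))) mem_top
  constructor
  · intro h i
    exact C_equiv hC.base Subgroup.topEquiv.symm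
      (h0.1 (C_le hC.base (sym_le_perm _) h) i)
  · intro h
    exact perm_finite hC (h0.2 fun i => C_equiv hC.base Subgroup.topEquiv (h i))

/-- outer automorphisms -/
theorem out_iff (hC : ClosedE C) (hF : FbC C)
    (hS : ∀ (S : Type) [Group S], Group.IsSolvable S → C S)
    (Q : ∀ i, Subgroup (MulAut (M i))) (hQ : ∀ i (x : M i), MulAut.conj x ∈ Q i)
    (O : Type) [Group O] (p : SymQ Q hQ →* O) (hp : Function.Surjective p)
    (hk : ∀ α, p α = 1 ↔ ∃ x, α.1 = MulAut.conj x) : C O ↔ ∀ i, C (Q i) := by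
  classical
  -- the projection to `E1`
  let π : SymQ Q hQ →* E1 Q := SemidirectProduct.rightHom.comp (equivSym Q hQ).toMonoidHom
  have hπ : Function.Surjective π :=
    SemidirectProduct.rightHom_surjective.comp (equivSym Q hQ).surjective
  have hval : ∀ e : E2 Q, ((equivSym Q hQ).symm e).1 = Th Q e := fun e => rfl
  have hker : p.ker = π.ker := by
    ext α
    rw [MonoidHom.mem_ker, MonoidHom.mem_ker, hk]
    obtain ⟨e, rfl⟩ := (equivSym Q hQ).symm.surjective α
    have h1 : π ((equivSym Q hQ).symm e) = e.right := by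
      show (SemidirectProduct.rightHom : E2 Q →* E1 Q) ((equivSym Q hQ) ((equivSym Q hQ).symm e)) = _
      rw [MulEquiv.apply_symm_apply]
      rfl
    rw [h1, hval]
    constructor
    · rintro ⟨x, hx⟩
      have h2 : Th Q e = Th Q (SemidirectProduct.inl x) := by
        rw [hx, Th_apply]
        show _ = MulAut.conj x * (lift ch (1 : E1 Q).left * facQ Q (1 : E1 Q).right)
        rw [SemidirectProduct.one_left, SemidirectProduct.one_right, map_one, map_one, mul_one,
          mul_one]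
      rw [Th_injective Q h2]
      rfl
    · intro h2
      refine ⟨e.left, ?_⟩
      rw [Th_apply, h2, SemidirectProduct.one_left, SemidirectProduct.one_right, map_one, map_one,
        mul_one, mul_one]
  have e : O ≃* E1 Q :=
    (QuotientGroup.quotientKerEquivOfSurjective p hp).symm.trans
      ((QuotientGroup.quotientMulEquivOfEq hker).trans
        (QuotientGroup.quotientKerEquivOfSurjective π hπ))
  constructor
  · intro h i
    have h1 : C (E1 Q) := C_equiv hC.base e.symm h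
    refine hC.base.of_injective _ _ ((SemidirectProduct.inr : _ →* E1 Q).comp
      (MonoidHom.mulSingle (fun i => Q i) i)) ?_ h1
    refine SemidirectProduct.inr_injective.comp ?_
    intro a b hab
    have h2 : Pi.mulSingle (M := fun i => Q i) i a = Pi.mulSingle (M := fun i => Q i) i b := hab
    exact Pi.mulSingle_injective i h2
  · intro h
    have h1 : C (∀ i, Q i) := Pool.Agent.R615.SC.pi_finite hC.base (Fin 3) (fun i => Q i) h
    exact C_equiv hC.base e (step (facQ Q) hC hF hS Q hQ h (ch_fac_mem Q hQ) h1)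

end main

end Pool.Agent.K7.H87.FJ7
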