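import Mathlib

/-!
# Normal forms in free products
-/

set_option autoImplicit false

namespace Pool.Agent.K7.H87.FJ7

open Monoid Monoid.CoprodI

variable {ι : Type} {M : ι → Type} [∀ i, Group (M i)]

open Classical in
/-- the index of the first syllable -/
noncomputable def st (x : CoprodI M) : Option ι := (Word.equiv x).fstIdx

/-- the index of the last syllable -/
noncomputable def en (x : CoprodI M) : Option ι := st x⁻¹

open Classical in
/-- the number of syllables -/
noncomputable def len (x : CoprodI M) : ℕ := (Word.equiv x).toList.length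

open Classical in
theorem exists_ne {x : CoprodI M} (h : x ≠ 1) : ∃ (i j : ι) (w : NeWord M i j), w.prod = x := by
  obtain ⟨i, j, w, hw⟩ := NeWord.of_word (Word.equiv x) (by
    intro h1
    apply h
    rw [← Word.equiv.symm_apply_apply x, h1]
    exact Word.prod_empty)
  refine ⟨i, j, w, ?_⟩
  rw [← Word.equiv.symm_apply_apply x, ← hw]
  rfl

open Classical in
theorem equiv_prod {i j : ι} (w : NeWord M i j) : Word.equiv w.prod = w.toWord :=
  Word.equiv.apply_symm_apply w.toWord

theorem st_prod {i j : ι} (w : NeWord M i j) : st w.prod = some i := by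
  classical
  rw [st, equiv_prod]
  show w.toList.head?.map Sigma.fst = some i
  rw [NeWord.toList_head?]
  rfl

theorem len_prod {i j : ι} (w : NeWord M i j) : len w.prod = w.toList.length := by
  classical
  rw [len, equiv_prod]
  rfl

theorem en_prod {i j : ι} (w : NeWord M i j) : en w.prod = some j := by
  rw [en, ← NeWord.inv_prod, st_prod]

theorem inv_length {i j : ι} (w : NeWord M i j) : w.inv.toList.length = w.toList.length := by
  induction w with
  | singleton => rfl
  | append w1 h w2 ih1 ih2 =>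
    show (w2.inv.toList ++ w1.inv.toList).length = (w1.toList ++ w2.toList).length
    rw [List.length_append, List.length_append, ih1, ih2, add_comm]

theorem st_one : st (1 : CoprodI M) = none := by
  classical
  have h : Word.equiv (1 : CoprodI M) = Word.empty :=
    Word.equiv.symm_apply_eq.1 (Word.prod_empty (M := M)) |>.symm
  rw [st, h]
  rfl

theorem len_one : len (1 : CoprodI M) = 0 := by
  classical
  have h : Word.equiv (1 : CoprodI M) = Word.empty :=
    Word.equiv.symm_apply_eq.1 (Word.prod_empty (M := M)) |>.symm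
  rw [len, h]
  rfl

theorem en_one : en (1 : CoprodI M) = none := by rw [en, inv_one, st_one]

@[simp] theorem en_inv (x : CoprodI M) : en x⁻¹ = st x := by rw [en, inv_inv]

@[simp] theorem st_inv (x : CoprodI M) : st x⁻¹ = en x := rfl

theorem len_inv (x : CoprodI M) : len x⁻¹ = len x := by
  by_cases h : x = 1
  · rw [h, inv_one]
  · obtain ⟨i, j, w, rfl⟩ := exists_ne h
    rw [← NeWord.inv_prod, len_prod, len_prod, inv_length]

theorem len_pos {x : CoprodI M} (h : x ≠ 1) : 0 < len x := by
  obtain ⟨i, j, w, rfl⟩ := exists_ne h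
  rw [len_prod]
  exact List.length_pos_of_ne_nil w.toList_ne_nil

theorem st_of {i : ι} {m : M i} (h : m ≠ 1) : st (of m) = some i := by
  rw [← NeWord.prod_singleton m h, st_prod]

theorem en_of {i : ι} {m : M i} (h : m ≠ 1) : en (of m) = some i := by
  rw [← NeWord.prod_singleton m h, en_prod]

theorem len_of {i : ι} {m : M i} (h : m ≠ 1) : len (of m) = 1 := by
  rw [← NeWord.prod_singleton m h, len_prod]
  rfl

theorem len_of_le {i : ι} (m : M i) : len (of m) ≤ 1 := by
  by_cases h : m = 1
  · rw [h, map_one, len_one]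
    omega
  · rw [len_of h]

theorem of_ne_one {i : ι} {m : M i} (h : m ≠ 1) : (of m : CoprodI M) ≠ 1 := by
  intro h1
  exact h (of_injective i (h1.trans (map_one of).symm))

/-- no cancellation in the product `x y` -/
def J (x y : CoprodI M) : Prop := ∀ i, en x = some i → st y ≠ some i

theorem mul_aux {x y : CoprodI M} (hx : x ≠ 1) (hy : y ≠ 1) (h : J x y) :
    st (x * y) = st x ∧ en (x * y) = en y ∧ len (x * y) = len x + len y ∧ x * y ≠ 1 := by
  obtain ⟨i, j, w, rfl⟩ := exists_ne hx
  obtain ⟨k, l, v, rfl⟩ := exists_ne hy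
  have hjk : j ≠ k := by
    intro h1
    exact h j (en_prod w) (by rw [st_prod, h1])
  have h1 : w.prod * v.prod = (NeWord.append w hjk v).prod := (NeWord.append_prod).symm
  rw [h1]
  refine ⟨by rw [st_prod, st_prod], by rw [en_prod, en_prod], ?_, ?_⟩
  · rw [len_prod, len_prod, len_prod]
    exact List.length_append
  · intro h2
    have h3 := st_prod (NeWord.append w hjk v)
    rw [h2, st_one] at h3
    exact absurd h3 (by simp)

theorem st_mul {x y : CoprodI M} (hx : x ≠ 1) (h : J x y) : st (x * y) = st x := by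
  by_cases hy : y = 1
  · rw [hy, mul_one]
  · exact (mul_aux hx hy h).1

theorem en_mul {x y : CoprodI M} (hy : y ≠ 1) (h : J x y) : en (x * y) = en y := by
  by_cases hx : x = 1
  · rw [hx, one_mul]
  · exact (mul_aux hx hy h).2.1

theorem len_mul {x y : CoprodI M} (h : J x y) : len (x * y) = len x + len y := by
  by_cases hx : x = 1
  · rw [hx, one_mul, len_one, zero_add]
  by_cases hy : y = 1
  · rw [hy, mul_one, len_one, add_zero]
  exact (mul_aux hx hy h).2.2.1

theorem mul_ne {x y : CoprodI M} (hx : x ≠ 1) (h : J x y) : x * y ≠ 1 := by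
  by_cases hy : y = 1
  · rwa [hy, mul_one]
  · exact (mul_aux hx hy h).2.2.2

theorem mul_ne' {x y : CoprodI M} (hy : y ≠ 1) (h : J x y) : x * y ≠ 1 := by
  by_cases hx : x = 1
  · rwa [hx, one_mul]
  · exact (mul_aux hx hy h).2.2.2

theorem J_one_left (y : CoprodI M) : J 1 y := fun i hi => by rw [en_one] at hi; exact absurd hi (by simp)

theorem J_one_right (x : CoprodI M) : J x 1 := fun i _ => by rw [st_one]; simp

theorem J_of_left {i : ι} (m : M i) {y : CoprodI M} (h : st y ≠ some i) : J (of m) y := by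
  by_cases hm : m = 1
  · rw [hm, map_one]
    exact J_one_left y
  · intro k hk
    rw [en_of hm] at hk
    rwa [← Option.some_injective _ hk]

theorem J_of_right {i : ι} (m : M i) {y : CoprodI M} (h : en y ≠ some i) : J y (of m) := by
  by_cases hm : m = 1
  · rw [hm, map_one]
    exact J_one_right y
  · intro k hk
    rw [st_of hm]
    intro hk2
    rw [hk, hk2] at h
    exact h rfl

theorem exists_strip (i : ι) (x : CoprodI M) : ∃ m : M i, st ((of m)⁻¹ * x) ≠ some i := by
  classical
  obtain ⟨p, hp⟩ : ∃ p, p = Word.equivPair i (Word.equiv x) := ⟨_, rfl⟩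
  refine ⟨p.head, ?_⟩
  have h1 : x = of p.head * p.tail.prod := by
    rw [← Word.prod_rcons, ← Word.equivPair_symm, hp, Equiv.symm_apply_apply]
    exact (Word.equiv.symm_apply_apply x).symm
  rw [h1, inv_mul_cancel_left]
  have h2 : st (p.tail.prod) = p.tail.fstIdx := by
    rw [st]
    congr 1
    exact Word.equiv.apply_symm_apply _
  rw [h2]
  exact p.fstIdx_ne

theorem strip_unique {i : ι} {x : CoprodI M} {m n : M i} (hm : st ((of m)⁻¹ * x) ≠ some i)
    (hn : st ((of n)⁻¹ * x) ≠ some i) : m = n := by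
  by_contra hne
  apply hn
  have h1 : (of n)⁻¹ * x = of (n⁻¹ * m) * ((of m)⁻¹ * x) := by
    rw [map_mul, map_inv]
    group
  have h2 : n⁻¹ * m ≠ 1 := fun h => hne (inv_mul_eq_one.1 h).symm
  rw [h1, st_mul (of_ne_one h2) (J_of_left _ hm), st_of h2]

/-- the first syllable if it is in `M i` -/
noncomputable def hd (i : ι) (x : CoprodI M) : M i := (exists_strip i x).choose

theorem hd_spec (i : ι) (x : CoprodI M) : st ((of (hd i x))⁻¹ * x) ≠ some i :=
  (exists_strip i x).choose_spec

theorem hd_eq {i : ι} {x : CoprodI M} {m : M i} (h : st ((of m)⁻¹ * x) ≠ some i) : hd i x = m :=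
  strip_unique (hd_spec i x) h

theorem hd_of_ne {i : ι} {x : CoprodI M} (h : st x ≠ some i) : hd i x = 1 := by
  apply hd_eq
  rwa [map_one, inv_one, one_mul]

theorem hd_one (i : ι) : hd i (1 : CoprodI M) = 1 := by
  apply hd_of_ne
  rw [st_one]
  simp

theorem st_ne_of_hd {i : ι} {x : CoprodI M} (h : hd i x = 1) : st x ≠ some i := by
  have := hd_spec i x
  rwa [h, map_one, inv_one, one_mul] at this

theorem exists_hd (i : ι) (x : CoprodI M) : ∃ y, x = of (hd i x) * y ∧ st y ≠ some i :=
  ⟨(of (hd i x))⁻¹ * x, by rw [mul_inv_cancel_left], hd_spec i x⟩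

theorem hd_of_mul (i : ι) (m : M i) (x : CoprodI M) : hd i (of m * x) = m * hd i x := by
  apply hd_eq
  have h1 : (of (m * hd i x))⁻¹ * (of m * x) = (of (hd i x))⁻¹ * x := by
    rw [map_mul]
    group
  rw [h1]
  exact hd_spec i x

/-- decomposition from the right -/
theorem exists_right (j : ι) (x : CoprodI M) : ∃ (s : CoprodI M) (m : M j), x = s * of m ∧
    en s ≠ some j := by
  obtain ⟨y, hy, hs⟩ := exists_hd j x⁻¹
  refine ⟨y⁻¹, (hd j x⁻¹)⁻¹, ?_, by rwa [en_inv]⟩
  rw [map_inv, ← mul_inv_rev, ← hy, inv_inv]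

theorem st_mul_of {i j : ι} (hij : i ≠ j) {t : CoprodI M} (ht : st t ≠ some i) (b : M j) :
    st (t * of b) ≠ some i := by
  obtain ⟨s, m, rfl, hs⟩ := exists_right j t
  rw [mul_assoc, ← map_mul]
  by_cases h : s = 1
  · rw [h, one_mul]
    by_cases h1 : m * b = 1
    · rw [h1, map_one, st_one]
      simp
    · rw [st_of h1]
      intro h2
      exact hij (Option.some_injective _ h2).symm
  · rw [st_mul h (J_of_right _ hs)]
    rwa [st_mul h (J_of_right _ hs)] at ht

theorem hd_mul_of {i j : ι} (hij : i ≠ j) (x : CoprodI M) (b : M j) :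
    hd i (x * of b) = hd i x := by
  obtain ⟨y, hy, hs⟩ := exists_hd i x
  apply hd_eq
  have h1 : (of (hd i x))⁻¹ * (x * of b) = y * of b := by
    rw [← mul_assoc]
    congr 1
    rw [inv_mul_eq_iff_eq_mul]
    exact hy
  rw [h1]
  exact st_mul_of hij hs b

/-- the first syllable of a product -/
theorem hd_mul {i j : ι} (hij : i ≠ j) {u z : CoprodI M} (hu : en u ≠ some i)
    (hz : z = 1 ∨ st z = some i) : hd j (u * z) = hd j u := by
  obtain ⟨t, ht, hs⟩ := exists_hd j u
  apply hd_eq
  have h1 : (of (hd j u))⁻¹ * (u * z) = t * z := by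
    rw [← mul_assoc]
    congr 1
    rw [inv_mul_eq_iff_eq_mul]
    exact ht
  rw [h1]
  by_cases h : t = 1
  · rw [h, one_mul]
    rcases hz with hz | hz
    · rw [hz, st_one]
      simp
    · rw [hz]
      intro h2
      exact hij (Option.some_injective _ h2)
  · have h3 : en t = en u := by
      conv_rhs => rw [ht]
      rw [en_mul h (J_of_left _ hs)]
    have h4 : J t z := by
      intro k hk
      rcases hz with hz | hz
      · rw [hz, st_one]
        simp
      · rw [hz]
        intro h5
        rw [h3] at hk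
        rw [hk, h5] at hu
        exact hu rfl
    rwa [st_mul h h4]

/-- at most one of three points is between the others -/
theorem hd_disjoint {i j : ι} (hij : i ≠ j) {p q : CoprodI M} (h : hd i p ≠ hd i q) :
    hd j p⁻¹ = hd j (p⁻¹ * q) := by
  obtain ⟨p', hp, hps⟩ := exists_hd i p
  obtain ⟨q', hq, hqs⟩ := exists_hd i q
  have h1 : p⁻¹ = p'⁻¹ * of (hd i p)⁻¹ := by
    conv_lhs => rw [hp]
    rw [mul_inv_rev, map_inv]
  have h2 : p⁻¹ * q = p'⁻¹ * (of ((hd i p)⁻¹ * hd i q) * q') := by
    rw [h1]
    conv_lhs => rw [hq]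
    rw [map_mul]
    group
  have hen : en p'⁻¹ ≠ some i := by rwa [en_inv]
  have hne : (hd i p)⁻¹ * hd i q ≠ 1 := fun h3 => h (inv_mul_eq_one.1 h3)
  rw [h2, hd_mul hij hen (Or.inr (by rw [st_mul (of_ne_one hne) (J_of_left _ hqs), st_of hne])), h1]
  by_cases h4 : (hd i p)⁻¹ = 1
  · rw [h4, map_one, mul_one]
  · exact hd_mul hij hen (Or.inr (st_of h4))

/-- malnormality of the factors -/
theorem malnormal {i j : ι} {c : CoprodI M} {m : M i} {n : M j} (hm : m ≠ 1)
    (h : c * of m * c⁻¹ = of n) : ∃ b : M i, c = of b := by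
  obtain ⟨s, b, hc, hs⟩ := exists_right i c
  by_cases h1 : s = 1
  · exact ⟨b, by rw [hc, h1, one_mul]⟩
  exfalso
  have hm' : b * m * b⁻¹ ≠ 1 := by
    intro h2
    apply hm
    have h3 : b * m = b := mul_inv_eq_one.1 h2
    exact mul_eq_left.1 h3
  have h2 : c * of m * c⁻¹ = s * of (b * m * b⁻¹) * s⁻¹ := by
    rw [hc, map_mul, map_mul, map_inv]
    group
  have h3 : len (s * of (b * m * b⁻¹) * s⁻¹) = len s + 1 + len s := by
    rw [len_mul, len_mul (J_of_right _ hs), len_of hm', len_inv]
    intro k hk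
    rw [en_mul (of_ne_one hm') (J_of_right _ hs), en_of hm'] at hk
    rw [st_inv, ← Option.some_injective _ hk]
    exact hs
  rw [← h2, h] at h3
  have h4 := len_of_le n (M := M)
  have h5 := len_pos h1
  omega

end Pool.Agent.K7.H87.FJ7
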