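import Pool.Agent.K7.H87.FJ7.Fin

/-!
# Groups of automorphisms of free products: statements
-/

set_option autoImplicit false
set_option linter.unusedSectionVars false

namespace Pool.Agent.K7.H87.FJ7

open Monoid Monoid.CoprodI
open Pool.Agent.Y110.FJ Pool.Agent.R684.FP
open Pool.Agent.R941.FJ (C_equiv C_le C_cyc)

/-- closure properties of the class `C`, and some groups in it -/
structure Known (C : ∀ (G : Type) [Group G], Prop) : Prop where
  closed : ClosedE C
  free : ∀ (X : Type) (α : MulAut (FreeGroup X)),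
    C (FreeGroup X ⋊[zpowersHom (MulAut (FreeGroup X)) α] Multiplicative ℤ)
  solvable : ∀ (S : Type) [Group S], Group.IsSolvable S → C S

/-- the automorphisms of a group -/
def GAut (A : Type) [Group A] : Type := A ≃* A

/-- composition of automorphisms -/
instance (A : Type) [Group A] : Group (GAut A) := (inferInstance : Group (MulAut A))

section GAut

variable {A : Type} [Group A]

/-- the value of an automorphism -/
def GAut.ap (φ : GAut A) (a : A) : A := DFunLike.coe (F := A ≃* A) φ a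

/-- the conjugate `c x c⁻¹` -/
def cj (c x : A) : A := c * x * c⁻¹

theorem ap_mul (φ : GAut A) (a b : A) : φ.ap (a * b) = φ.ap a * φ.ap b :=
  map_mul (F := A ≃* A) φ a b

theorem ap_inv (φ : GAut A) (a : A) : φ.ap a⁻¹ = (φ.ap a)⁻¹ := map_inv (F := A ≃* A) φ a

theorem ap_one (a : A) : (1 : GAut A).ap a = a := rfl

theorem mul_ap (φ ψ : GAut A) (a : A) : (φ * ψ).ap a = φ.ap (ψ.ap a) := rfl

theorem ap_inv_self (φ : GAut A) (a : A) : φ.ap (φ⁻¹.ap a) = a :=
  MulAut.apply_inv_self _ (φ : MulAut A) a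

end GAut

/-- the free product of the groups `M i` -/
def FreeProd (M : Fin 3 → Type) [∀ i, Group (M i)] : Type := CoprodI M

/-- multiplication in the free product -/
instance (M : Fin 3 → Type) [∀ i, Group (M i)] : Group (FreeProd M) :=
  (inferInstance : Group (CoprodI M))

variable {M : Fin 3 → Type} [∀ i, Group (M i)]

/-- the inclusion of a factor -/
def inj (i : Fin 3) (m : M i) : FreeProd M := CoprodI.of m

/-- `α x = c (φ x) c⁻¹` for `x` in the factor `M i` -/
def Acts (α : GAut (FreeProd M)) (i : Fin 3) (c : FreeProd M) (φ : GAut (M i)) : Prop :=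
  ∀ x : M i, α.ap (inj i x) = cj c (inj i (φ.ap x))

/-- `α` acts on each factor `M i` by an automorphism in `Q i` and a conjugation -/
def IsSym (Q : ∀ i, Subgroup (GAut (M i))) (α : GAut (FreeProd M)) : Prop :=
  ∀ i, ∃ c φ, φ ∈ Q i ∧ Acts α i c φ

/-- `α` maps the factor `M i` onto the conjugate of the factor `M j` by `c` -/
def Maps (α : GAut (FreeProd M)) (i j : Fin 3) (c : FreeProd M) : Prop :=
  ∀ x, (∃ m, inj i m = x) ↔ ∃ n, cj c (inj j n) = α.ap x

/-- `α` permutes the conjugacy classes of the factors -/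
def IsPerm (α : GAut (FreeProd M)) : Prop :=
  ∃ σ : Equiv.Perm (Fin 3), ∀ i, ∃ c, Maps α i (σ i) c

/-- `Q i` contains the inner automorphisms -/
def HasInner (Q : ∀ i, Subgroup (GAut (M i))) : Prop :=
  ∀ i (g : M i) (φ : GAut (M i)), (∀ x, φ.ap x = cj g x) → φ ∈ Q i

theorem HasInner.conj {Q : ∀ i, Subgroup (GAut (M i))} (hQ : HasInner Q) (i : Fin 3) (x : M i) :
    MulAut.conj x ∈ (Q i : Subgroup (MulAut (M i))) := hQ i x _ fun _ => rfl

/-- the same automorphism -/
def toAut (α : GAut (FreeProd M)) : MulAut (CoprodI M) := α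

/-- the same element -/
def toCo (c : FreeProd M) : CoprodI M := c

theorem maps_iff (α : GAut (FreeProd M)) (i j : Fin 3) (c : FreeProd M) :
    Maps α i j c ↔ Pos2 (M := M) (toAut α) i j (toCo c) := by
  have h1 : ∀ x, (∃ n, cj c (inj j n) = α.ap x) ↔
      (toCo c)⁻¹ * (toAut α) x * toCo c ∈ R M j := by
    intro x
    constructor
    · rintro ⟨n, hn⟩
      refine ⟨n, ?_⟩
      have h2 : (toAut α) x = toCo c * of n * (toCo c)⁻¹ := hn.symm
      rw [h2]
      group
    · rintro ⟨n, hn⟩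
      refine ⟨n, ?_⟩
      show toCo c * of n * (toCo c)⁻¹ = (toAut α) x
      rw [hn]
      group
  constructor
  · intro h x
    exact (h x).trans (h1 x)
  · intro h x
    exact (h x).trans (h1 x).symm

theorem isPerm_iff (α : GAut (FreeProd M)) :
    IsPerm α ↔ (α : MulAut (CoprodI M)) ∈ PermAut M := by
  constructor
  · rintro ⟨σ, h⟩
    refine ⟨σ, fun i => ?_⟩
    obtain ⟨c, hc⟩ := h i
    exact ⟨c, (maps_iff α i (σ i) c).1 hc⟩
  · rintro ⟨σ, h⟩
    refine ⟨σ, fun i => ?_⟩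
    obtain ⟨c, hc⟩ := h i
    exact ⟨c, (maps_iff α i (σ i) c).2 hc⟩

theorem isSym_iff {Q : ∀ i, Subgroup (GAut (M i))} (hQ : HasInner Q) (α : GAut (FreeProd M)) :
    IsSym Q α ↔ (α : MulAut (CoprodI M)) ∈
      SymQ (fun i => (Q i : Subgroup (MulAut (M i)))) hQ.conj := by
  constructor
  · intro h i
    obtain ⟨c, φ, hφ, hc⟩ := h i
    exact ⟨c, φ, hφ, hc⟩
  · intro h i
    obtain ⟨c, φ, hφ, hc⟩ := h i
    exact ⟨c, φ, hφ, hc⟩

theorem perm_one : IsPerm (1 : GAut (FreeProd M)) := (isPerm_iff 1).2 (PermAut M).one_mem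

theorem perm_mul {α β : GAut (FreeProd M)} (ha : IsPerm α) (hb : IsPerm β) : IsPerm (α * β) :=
  (isPerm_iff (α * β)).2 ((PermAut M).mul_mem ((isPerm_iff α).1 ha) ((isPerm_iff β).1 hb))

theorem perm_inv {α : GAut (FreeProd M)} (ha : IsPerm α) : IsPerm α⁻¹ :=
  (isPerm_iff α⁻¹).2 ((PermAut M).inv_mem ((isPerm_iff α).1 ha))

theorem sym_one (Q : ∀ i, Subgroup (GAut (M i))) : IsSym Q 1 := fun i =>
  ⟨1, 1, one_mem _, fun x => by
    rw [ap_one, ap_one, cj, one_mul, inv_one, mul_one]⟩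

theorem sym_mul {Q : ∀ i, Subgroup (GAut (M i))} {α β : GAut (FreeProd M)} (ha : IsSym Q α)
    (hb : IsSym Q β) : IsSym Q (α * β) := by
  intro i
  obtain ⟨c, φ, hφ, hc⟩ := ha i
  obtain ⟨d, ψ, hψ, hd⟩ := hb i
  refine ⟨α.ap d * c, φ * ψ, mul_mem hφ hψ, fun x => ?_⟩
  rw [mul_ap, hd, cj, ap_mul, ap_mul, hc, mul_ap, ap_inv, cj, cj]
  group

theorem sym_inv {Q : ∀ i, Subgroup (GAut (M i))} {α : GAut (FreeProd M)} (ha : IsSym Q α) :
    IsSym Q α⁻¹ := by
  intro i
  obtain ⟨c, φ, hφ, hc⟩ := ha i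
  refine ⟨α⁻¹.ap c⁻¹, φ⁻¹, inv_mem hφ, fun x => ?_⟩
  have h1 := hc (φ⁻¹.ap x)
  rw [ap_inv_self, cj] at h1
  have h2 : inj i x = c⁻¹ * α.ap (inj i (φ⁻¹.ap x)) * c := by
    rw [h1]
    group
  have h3 : ∀ y, α⁻¹.ap (α.ap y) = y := fun y => MulAut.inv_apply_self _ (α : MulAut _) y
  rw [h2, ap_mul, ap_mul, h3, cj, ap_inv, inv_inv]

/-- the group of the automorphisms that permute the conjugacy classes of the factors -/
def permSub (M : Fin 3 → Type) [∀ i, Group (M i)] : Subgroup (GAut (FreeProd M)) where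
  carrier := {α | IsPerm α}
  one_mem' := perm_one
  mul_mem' := perm_mul
  inv_mem' := perm_inv

/-- the group of the automorphisms `α` with `IsSym Q α` -/
def symSub (Q : ∀ i, Subgroup (GAut (M i))) : Subgroup (GAut (FreeProd M)) where
  carrier := {α | IsSym Q α}
  one_mem' := sym_one Q
  mul_mem' := sym_mul
  inv_mem' := sym_inv

/-- inner automorphisms -/
def IsInner (α : GAut (FreeProd M)) : Prop := ∃ g, ∀ x, α.ap x = cj g x

/-- the inner automorphisms of the free product -/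
def innSub (M : Fin 3 → Type) [∀ i, Group (M i)] : Subgroup (GAut (FreeProd M)) where
  carrier := {α | IsInner α}
  one_mem' := ⟨1, fun x => by rw [ap_one, cj, one_mul, inv_one, mul_one]⟩
  mul_mem' := by
    rintro α β ⟨g, hg⟩ ⟨h, hh⟩
    refine ⟨g * h, fun x => ?_⟩
    rw [mul_ap, hh, hg, cj, cj, cj]
    group
  inv_mem' := by
    rintro α ⟨g, hg⟩
    refine ⟨g⁻¹, fun x => ?_⟩
    have h1 := ap_inv_self α x
    rw [hg, cj] at h1
    generalize α⁻¹.ap x = y at h1 ⊢
    rw [cj, ← h1]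
    group

theorem innSub_conj {α β : GAut (FreeProd M)} (ha : IsInner α) : IsInner (β * α * β⁻¹) := by
  obtain ⟨g, hg⟩ := ha
  refine ⟨β.ap g, fun x => ?_⟩
  rw [mul_ap, mul_ap, hg, cj, ap_mul, ap_mul, ap_inv, ap_inv_self, cj]

instance (Q : ∀ i, Subgroup (GAut (M i))) : ((innSub M).subgroupOf (symSub Q)).Normal := by
  constructor
  rintro α hα β
  rw [Subgroup.mem_subgroupOf] at hα ⊢
  exact innSub_conj hα

/-- the same group -/
def symEquiv (Q : ∀ i, Subgroup (GAut (M i))) (hQ : HasInner Q) :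
    symSub Q ≃* SymQ (fun i => (Q i : Subgroup (MulAut (M i)))) hQ.conj where
  toFun α := ⟨α.1, (isSym_iff hQ α.1).1 α.2⟩
  invFun α := ⟨α.1, (isSym_iff hQ α.1).2 α.2⟩
  left_inv _ := rfl
  right_inv _ := rfl
  map_mul' _ _ := rfl

/-- the same group -/
def permEquiv : permSub M ≃* PermAut M where
  toFun α := ⟨α.1, (isPerm_iff α.1).1 α.2⟩
  invFun α := ⟨α.1, (isPerm_iff α.1).2 α.2⟩
  left_inv _ := rfl
  right_inv _ := rfl
  map_mul' _ _ := rfl

theorem sym_result {C : ∀ (G : Type) [Group G], Prop} (hC : Known C) [∀ i, Nontrivial (M i)] :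
    (C (permSub M) ↔ ∀ i, C (GAut (M i))) ∧
    ∀ Q : ∀ i, Subgroup (GAut (M i)), HasInner Q →
      (C (symSub Q) ↔ ∀ i, C (Q i)) ∧
      (C (symSub Q ⧸ (innSub M).subgroupOf (symSub Q)) ↔ ∀ i, C (Q i)) := by
  refine ⟨?_, fun Q hQ => ⟨?_, ?_⟩⟩
  · have h := perm_iff (M := M) hC.closed hC.free hC.solvable
    exact ⟨fun h1 => h.1 (C_equiv hC.closed.base permEquiv.symm h1),
      fun h1 => C_equiv hC.closed.base permEquiv (h.2 h1)⟩
  · have h := main_iff hC.closed hC.free hC.solvable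
      (fun i => (Q i : Subgroup (MulAut (M i)))) hQ.conj
    exact ⟨fun h1 => h.1 (C_equiv hC.closed.base (symEquiv Q hQ).symm h1),
      fun h1 => C_equiv hC.closed.base (symEquiv Q hQ) (h.2 h1)⟩
  · have hn : ((innSub M).subgroupOf (symSub Q)).Normal := inferInstance
    let p0 : symSub Q →* symSub Q ⧸ (innSub M).subgroupOf (symSub Q) := QuotientGroup.mk' _
    have hp0 : Function.Surjective p0 := QuotientGroup.mk'_surjective _
    have hk0 : ∀ α, p0 α = 1 ↔ α ∈ (innSub M).subgroupOf (symSub Q) := fun α =>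
      QuotientGroup.eq_one_iff α
    refine out_iff hC.closed hC.free hC.solvable (fun i => (Q i : Subgroup (MulAut (M i))))
      hQ.conj _ (p0.comp (symEquiv Q hQ).symm.toMonoidHom)
      (hp0.comp (symEquiv Q hQ).symm.surjective) ?_
    intro α
    show p0 ((symEquiv Q hQ).symm α) = 1 ↔ _
    rw [hk0]
    constructor
    · rintro ⟨g, hg⟩
      refine ⟨g, ?_⟩
      apply MulEquiv.ext
      exact hg
    · rintro ⟨g, hg⟩
      refine ⟨g, fun x => ?_⟩
      exact DFunLike.congr_fun hg x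

end Pool.Agent.K7.H87.FJ7
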