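import Pool.Agent.K7.H87.FJ7.Sym

/-!
# The structure of the group of symmetric automorphisms of a free product of three groups
-/

set_option autoImplicit false
set_option linter.unusedSectionVars false

namespace Pool.Agent.K7.H87.FJ7

open Monoid Monoid.CoprodI

section len

variable {ι : Type} {M : ι → Type} [∀ i, Group (M i)]

theorem len_of_mul_le {i : ι} (m : M i) (x : CoprodI M) : len (of m * x) ≤ len x + 1 := by
  obtain ⟨y, hy, hs⟩ := exists_hd i x
  obtain ⟨h, hh⟩ : ∃ h, h = hd i x := ⟨_, rfl⟩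
  rw [← hh] at hy
  rw [hy, ← mul_assoc, ← map_mul, len_mul (J_of_left _ hs), len_mul (J_of_left _ hs)]
  have := len_of_le (m * h)
  omega

theorem len_mul_le (x y : CoprodI M) : len (x * y) ≤ len x + len y := by
  by_cases hx : x = 1
  · rw [hx, one_mul, len_one, zero_add]
  obtain ⟨i, j, w, rfl⟩ := FJ7.exists_ne hx
  clear hx
  induction w generalizing y with
  | singleton m hm =>
    rw [NeWord.prod_singleton, len_of hm]
    have := len_of_mul_le m y
    omega
  | append w1 h w2 ih1 ih2 =>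
    have h1 : len (NeWord.append w1 h w2).prod = len w1.prod + len w2.prod := by
      rw [len_prod, len_prod, len_prod]
      exact List.length_append
    rw [h1, NeWord.append_prod, mul_assoc]
    have := ih1 (w2.prod * y)
    have := ih2 y
    omega

theorem eq_one_of_len {x : CoprodI M} (h : len x = 0) : x = 1 := by
  by_contra h1
  have := len_pos h1
  omega

end len

section Q

variable {ι : Type} {M : ι → Type} [∀ i, Group (M i)] (Q : ∀ i, Subgroup (MulAut (M i)))

/-- the automorphisms `α` such that for each `i` there are `c` and `φ` in `Q i` with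
`α x = c (φ x) c⁻¹` for `x` in `M i` -/
def SymQ (_ : ∀ i (x : M i), MulAut.conj x ∈ Q i) : Subgroup (MulAut (CoprodI M)) where
  carrier := {α | ∀ i, ∃ c : CoprodI M, ∃ φ ∈ Q i, ∀ x : M i, α (of x) = c * of (φ x) * c⁻¹}
  one_mem' := fun i => ⟨1, 1, one_mem _, fun x => by simp⟩
  mul_mem' := by
    intro α β ha hb i
    obtain ⟨c, φ, hφ, hc⟩ := ha i
    obtain ⟨d, ψ, hψ, hd⟩ := hb i
    refine ⟨α d * c, φ * ψ, mul_mem hφ hψ, fun x => ?_⟩
    rw [MulAut.mul_apply, hd, map_mul, map_mul, hc, MulAut.mul_apply, map_inv]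
    group
  inv_mem' := by
    intro α ha i
    obtain ⟨c, φ, hφ, hc⟩ := ha i
    obtain ⟨u, hu⟩ : ∃ u, u = α⁻¹ c⁻¹ := ⟨_, rfl⟩
    have hu' : α u = c⁻¹ := by rw [hu, MulAut.apply_inv_self]
    refine ⟨u, φ⁻¹, inv_mem hφ, fun x => ?_⟩
    apply α.injective
    rw [MulAut.apply_inv_self, map_mul, map_mul, map_inv, hu', hc, MulAut.apply_inv_self]
    group

theorem mem_SymQ {hQ : ∀ i (x : M i), MulAut.conj x ∈ Q i} {α : MulAut (CoprodI M)} :
    α ∈ SymQ Q hQ ↔ ∀ i, ∃ c : CoprodI M, ∃ φ ∈ Q i, ∀ x : M i, α (of x) = c * of (φ x) * c⁻¹ :=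
  Iff.rfl

/-- positions and automorphisms of the factors -/
theorem pos_of_eq {α : MulAut (CoprodI M)} {i : ι} {c : CoprodI M} {φ : MulAut (M i)}
    (h : ∀ x : M i, α (of x) = c * of (φ x) * c⁻¹) : Pos α i c := by
  intro x
  constructor
  · rintro ⟨m, rfl⟩
    rw [h]
    exact ⟨φ m, by group⟩
  · rintro ⟨m, hm⟩
    refine ⟨φ⁻¹ m, ?_⟩
    apply α.injective
    rw [h, MulAut.apply_inv_self, hm]
    group

theorem sym_pos {hQ : ∀ i (x : M i), MulAut.conj x ∈ Q i} {α : MulAut (CoprodI M)}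
    (h : α ∈ SymQ Q hQ) : ∃ c : ι → CoprodI M, ∀ i, Pos α i (c i) := by
  choose c φ hφ hc using h
  exact ⟨c, fun i => pos_of_eq (hc i)⟩

theorem conj_mem (hQ : ∀ i (x : M i), MulAut.conj x ∈ Q i) (p : CoprodI M) :
    MulAut.conj p ∈ SymQ Q hQ := fun i => ⟨p, 1, one_mem _, fun x => by simp⟩

/-- the restriction of an automorphism to a factor -/
theorem exists_res {β : MulAut (CoprodI M)} {i : ι} (h : Pos β i 1) :
    ∃ φ : MulAut (M i), ∀ x, β (of x) = of (φ x) := by
  have h1 : ∀ β : MulAut (CoprodI M), Pos β i 1 → ∀ x : M i, β (of x) ∈ R M i := by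
    intro β hβ x
    have := (hβ (of x)).1 ⟨x, rfl⟩
    rwa [inv_one, one_mul, mul_one] at this
  have h2 : Pos β⁻¹ i 1 := by
    have := h.inv
    rwa [inv_one, map_one] at this
  let e := MonoidHom.ofInjective (of_injective (M := M) i)
  let f : ∀ β : MulAut (CoprodI M), Pos β i 1 → (M i →* M i) := fun β hβ =>
    e.symm.toMonoidHom.comp ((β.toMonoidHom.comp of).codRestrict (R M i) (h1 β hβ))
  have hf : ∀ (β : MulAut (CoprodI M)) (hβ : Pos β i 1) (x : M i), of (f β hβ x) = β (of x) := by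
    intro β hβ x
    have h3 : e (f β hβ x) = ⟨β (of x), h1 β hβ x⟩ := e.apply_symm_apply _
    exact congrArg Subtype.val h3
  refine ⟨MonoidHom.toMulEquiv (f β h) (f β⁻¹ h2) ?_ ?_, fun x => (hf β h x).symm⟩
  · ext x
    apply of_injective (M := M) i
    show of (f β⁻¹ h2 (f β h x)) = of x
    rw [hf β⁻¹ h2, hf β h, MulAut.inv_apply_self]
  · ext x
    apply of_injective (M := M) i
    show of (f β h (f β⁻¹ h2 x)) = of x
    rw [hf β h, hf β⁻¹ h2, MulAut.apply_inv_self]

end Q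

section three

variable {M : Fin 3 → Type} [∀ i, Group (M i)] (Q : ∀ i, Subgroup (MulAut (M i)))

theorem ch_symQ (hQ : ∀ i (x : M i), MulAut.conj x ∈ Q i) (i : Fin 3) (g : M i) :
    ch i g ∈ SymQ Q hQ := by
  intro j
  by_cases h : j = i + 1
  · subst h
    exact ⟨(of g)⁻¹, 1, one_mem _, fun x => by rw [ch_same, inv_inv]; rfl⟩
  · exact ⟨1, 1, one_mem _, fun x => by rw [ch_ne h]; simp⟩

theorem ch_fac (φ : ∀ i, MulAut (M i)) (i : Fin 3) (g : M i) :
    ch i (φ i g) = fac φ * ch i g * (fac φ)⁻¹ := by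
  rw [eq_mul_inv_iff_mul_eq]
  apply aut_ext
  intro j x
  rw [MulAut.mul_apply, MulAut.mul_apply, fac_of]
  by_cases h : j = i + 1
  · subst h
    rw [ch_same, ch_same, map_mul, map_mul, map_inv, fac_of, fac_of]
  · rw [ch_ne h, ch_ne h, fac_of]

/-- the automorphisms of the factors in `Q` -/
noncomputable def facQ : (∀ i, Q i) →* MulAut (CoprodI M) :=
  fac.comp (MonoidHom.pi fun i => (Q i).subtype.comp (Pi.evalMonoidHom _ i))

theorem facQ_of (φ : ∀ i, Q i) {i : Fin 3} (x : M i) : facQ Q φ (of x) = of ((φ i).1 x) :=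
  fac_of _ x

theorem ch_facQ (φ : ∀ i, Q i) (i : Fin 3) (g : M i) :
    ch i ((φ i).1 g) = facQ Q φ * ch i g * (facQ Q φ)⁻¹ :=
  ch_fac (fun i => (φ i).1) i g

theorem compat1 (φ : ∀ i, Q i) : (lift ch).comp (facQ Q φ).toMonoidHom =
    (MulAut.conj (facQ Q φ)).toMonoidHom.comp (lift ch) := by
  apply ext_hom
  intro i
  apply MonoidHom.ext
  intro g
  simp only [MonoidHom.comp_apply, MulEquiv.toMonoidHom_eq_coe, MonoidHom.coe_coe, facQ_of,
    lift_of, MulAut.conj_apply]
  exact ch_facQ Q φ i g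

/-- the group generated by partial conjugations and automorphisms of the factors -/
abbrev E1 : Type := CoprodI M ⋊[facQ Q] (∀ i, Q i)

/-- the homomorphism to the automorphism group -/
noncomputable def Xi : E1 Q →* MulAut (CoprodI M) :=
  SemidirectProduct.lift (lift ch) (facQ Q) (compat1 Q)

theorem Xi_apply (e : E1 Q) : Xi Q e = lift ch e.left * facQ Q e.right := rfl

theorem compat2 (y : E1 Q) : (MulAut.conj (G := CoprodI M)).comp (Xi Q y).toMonoidHom =
    (MulAut.conj (Xi Q y)).toMonoidHom.comp MulAut.conj := by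
  apply MonoidHom.ext
  intro p
  apply MulEquiv.ext
  intro x
  simp only [MonoidHom.comp_apply, MulEquiv.toMonoidHom_eq_coe, MonoidHom.coe_coe,
    MulAut.conj_apply, MulAut.mul_apply, map_mul, MulAut.apply_inv_self, map_inv]

/-- with inner automorphisms -/
abbrev E2 : Type := CoprodI M ⋊[Xi Q] E1 Q

/-- the homomorphism to the automorphism group -/
noncomputable def Th : E2 Q →* MulAut (CoprodI M) :=
  SemidirectProduct.lift MulAut.conj (Xi Q) (compat2 Q)

theorem Th_apply (e : E2 Q) : Th Q e = MulAut.conj e.left * (lift ch e.right.left *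
    facQ Q e.right.right) := rfl

variable [∀ i, Nontrivial (M i)]

theorem Th_injective : Function.Injective (Th Q) := by
  rw [injective_iff_map_eq_one]
  intro e he
  rw [Th_apply] at he
  obtain ⟨p, hp⟩ : ∃ p, p = e.left := ⟨_, rfl⟩
  obtain ⟨w, hw⟩ : ∃ w, w = e.right.left := ⟨_, rfl⟩
  obtain ⟨φ, hφ⟩ : ∃ φ, φ = e.right.right := ⟨_, rfl⟩
  rw [← hp, ← hw, ← hφ] at he
  have hfac : ∀ j, Pos (facQ Q φ)⁻¹ j 1 := by
    intro j
    rw [← map_inv]
    exact Pos.fac _ j
  have hw1 : w = 1 := by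
    by_contra hne
    obtain ⟨i, hi⟩ := ch_mem hne
    have h1 : lift ch w = MulAut.conj p⁻¹ * (facQ Q φ)⁻¹ := by
      have h0 : lift ch w = (MulAut.conj p)⁻¹ * (MulAut.conj p * (lift ch w * facQ Q φ)) *
          (facQ Q φ)⁻¹ := by group
      rw [he, mul_one] at h0
      rw [map_inv]
      exact h0
    refine not_bt_of_const (p := p⁻¹) ?_ i hi
    intro j
    rw [h1]
    have := (Pos.conj p⁻¹ j).mul (hfac j)
    rwa [map_one, one_mul] at this
  rw [hw1, map_one, one_mul] at he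
  have h2 : MulAut.conj p = (facQ Q φ)⁻¹ := eq_inv_of_mul_eq_one_left he
  have h3 : ∀ j, ∃ m : M j, p = of m := by
    intro j
    have h4 := (hfac j)
    rw [← h2] at h4
    obtain ⟨m, hm⟩ := h4.unique (Pos.conj p j)
    exact ⟨m, by rw [hm, one_mul]⟩
  obtain ⟨a, ha⟩ := h3 0
  obtain ⟨b, hb⟩ := h3 1
  have hp1 : p = 1 := by
    by_contra hne
    have ha1 : a ≠ 1 := by
      rintro rfl
      exact hne (by rw [ha, map_one])
    have hb1 : b ≠ 1 := by
      rintro rfl
      exact hne (by rw [hb, map_one])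
    have h5 := st_of ha1
    have h6 := st_of hb1
    rw [← ha] at h5
    rw [← hb, h5] at h6
    exact absurd h6 (by decide)
  rw [hp1, map_one, one_mul] at he
  have hφ1 : φ = 1 := by
    funext i
    apply Subtype.ext
    apply MulEquiv.ext
    intro x
    apply of_injective (M := M) i
    rw [← facQ_of, he]
    rfl
  refine SemidirectProduct.ext (hp.symm.trans hp1) ?_
  exact SemidirectProduct.ext (hw.symm.trans hw1) (hφ.symm.trans hφ1)

/-- the sum of the distances -/
noncomputable def nu (c : Fin 3 → CoprodI M) : ℕ :=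
  len ((c 0)⁻¹ * c 1) + len ((c 1)⁻¹ * c 2) + len ((c 2)⁻¹ * c 0)

theorem nu_eq (c : Fin 3 → CoprodI M) (i : Fin 3) : nu c =
    len ((c i)⁻¹ * c (i + 1)) + len ((c (i + 1))⁻¹ * c (i + 2)) + len ((c (i + 2))⁻¹ * c i) := by
  fin_cases i
  · rfl
  · show _ = len ((c 1)⁻¹ * c 2) + len ((c 2)⁻¹ * c 0) + len ((c 0)⁻¹ * c 1)
    rw [nu]
    omega
  · show _ = len ((c 2)⁻¹ * c 0) + len ((c 0)⁻¹ * c 1) + len ((c 1)⁻¹ * c 2)
    rw [nu]
    omega

/-- the reduction step -/
theorem red_step {α : MulAut (CoprodI M)} {c : Fin 3 → CoprodI M} (hc : ∀ j, Pos α j (c j))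
    {i : Fin 3} (h : hd i ((c i)⁻¹ * c (i + 1)) ≠ hd i ((c i)⁻¹ * c (i + 2))) :
    ∃ (g : M i) (d : Fin 3 → CoprodI M), (∀ j, Pos (α * ch i g) j (d j)) ∧ nu d < nu c := by
  obtain ⟨p, hp⟩ := exists_hd i ((c i)⁻¹ * c (i + 1))
  obtain ⟨q, hq⟩ := exists_hd i ((c i)⁻¹ * c (i + 2))
  obtain ⟨a, ha⟩ : ∃ a, a = hd i ((c i)⁻¹ * c (i + 1)) := ⟨_, rfl⟩
  obtain ⟨b, hb⟩ : ∃ b, b = hd i ((c i)⁻¹ * c (i + 2)) := ⟨_, rfl⟩
  rw [← ha] at hp h
  rw [← hb] at hq h
  obtain ⟨hp, hps⟩ := hp
  obtain ⟨hq, hqs⟩ := hq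
  obtain ⟨g, hg⟩ := (hc i).exists_pre (a * b⁻¹)
  have e1 : c (i + 1) = c i * (of a * p) := by rw [← hp]; group
  have e2 : c (i + 2) = c i * (of b * q) := by rw [← hq]; group
  have hne : a⁻¹ * b ≠ 1 := fun h1 => h (inv_mul_eq_one.1 h1)
  let d0 : Fin 3 → CoprodI M := fun j => if j = i + 1 then α (of g)⁻¹ * c j else c j
  have hd0 : ∀ j, Pos (α * ch i g) j (d0 j) := pos_move hc i g
  let m : ∀ j, M j := fun j => if h : i = j then h ▸ b else 1
  have hm : m i = b := by simp [m]
  have hm' : ∀ j, j ≠ i → m j = 1 := fun j hj => by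
    simp only [m]
    rw [dif_neg (Ne.symm hj)]
  refine ⟨g, fun j => d0 j * of (m j), fun j => (hd0 j).mul_of (m j), ?_⟩
  have f0 : d0 i = c i := if_neg (ne_succ i)
  have f1 : d0 (i + 1) = c i * (of b * p) := by
    show (if i + 1 = i + 1 then α (of g)⁻¹ * c (i + 1) else c (i + 1)) = _
    rw [if_pos rfl, map_inv, hg, e1, map_mul, map_inv]
    group
  have f2 : d0 (i + 2) = c i * (of b * q) := by
    show (if i + 2 = i + 1 then α (of g)⁻¹ * c (i + 2) else c (i + 2)) = _
    rw [if_neg (succ_ne i).2.2, e2]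
  rw [nu_eq _ i, nu_eq c i]
  simp only [f0, f1, f2, hm, hm' _ (succ_ne i).1, hm' _ (succ_ne i).2.1, map_one, mul_one]
  have g1 : (c i * of b)⁻¹ * (c i * (of b * p)) = p := by group
  have g2 : (c i * (of b * p))⁻¹ * (c i * (of b * q)) = p⁻¹ * q := by group
  have g3 : (c i * (of b * q))⁻¹ * (c i * of b) = q⁻¹ := by group
  have g4 : (c i)⁻¹ * c (i + 1) = of a * p := hp
  have g5 : (c (i + 1))⁻¹ * c (i + 2) = p⁻¹ * (of (a⁻¹ * b) * q) := by
    rw [e1, e2, map_mul, map_inv]
    group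
  have g6 : (c (i + 2))⁻¹ * c i = (of b * q)⁻¹ := by
    rw [e2]
    group
  rw [g1, g2, g3, g4, g5, g6]
  have l1 : len (p⁻¹ * (of (a⁻¹ * b) * q)) = len p + (1 + len q) := by
    rw [len_mul, len_inv, len_mul (J_of_left _ hqs), len_of hne]
    intro k hk
    rw [en_inv] at hk
    rw [st_mul (of_ne_one hne) (J_of_left _ hqs), st_of hne]
    intro h7
    rw [hk, h7] at hps
    exact hps rfl
  have l2 := len_mul_le p⁻¹ q
  rw [len_inv] at l2
  rw [l1, len_inv, len_inv, len_mul (J_of_left _ hps), len_mul (J_of_left _ hqs)]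
  omega

/-- reduced products -/
theorem term_aux {α : MulAut (CoprodI M)} {d : Fin 3 → CoprodI M} (hd : ∀ j, Pos α j (d j))
    (hst : ∀ i k, i ≠ k → st ((d i)⁻¹ * d k) ≠ some i) {i j : Fin 3} (w : NeWord M i j) :
    st ((d i)⁻¹ * α w.prod * d j) = some i ∧ en ((d i)⁻¹ * α w.prod * d j) = some j := by
  induction w with
  | @singleton i x hx =>
    obtain ⟨n, hn, hn1⟩ := (hd i).exists_eq x
    have h1 : (d i)⁻¹ * α (NeWord.singleton x hx).prod * d i = of n := by
      rw [NeWord.prod_singleton, hn]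
      group
    rw [h1, st_of (hn1 hx), en_of (hn1 hx)]
    exact ⟨rfl, rfl⟩
  | @append i j k l w1 hne w2 ih1 ih2 =>
    obtain ⟨z1, hz1⟩ : ∃ z, z = (d i)⁻¹ * α w1.prod * d j := ⟨_, rfl⟩
    obtain ⟨z2, hz2⟩ : ∃ z, z = (d k)⁻¹ * α w2.prod * d l := ⟨_, rfl⟩
    obtain ⟨u, hu⟩ : ∃ u, u = (d j)⁻¹ * d k := ⟨_, rfl⟩
    rw [← hz1] at ih1
    rw [← hz2] at ih2
    have h1 : (d i)⁻¹ * α (NeWord.append w1 hne w2).prod * d l = z1 * u * z2 := by
      rw [NeWord.append_prod, map_mul, hz1, hz2, hu]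
      group
    have hz1ne : z1 ≠ 1 := by
      rintro rfl
      rw [st_one] at ih1
      exact absurd ih1.1 (by simp)
    have hz2ne : z2 ≠ 1 := by
      rintro rfl
      rw [st_one] at ih2
      exact absurd ih2.1 (by simp)
    have hJ1 : J z1 u := by
      intro t ht
      rw [ih1.2] at ht
      rw [← Option.some_injective _ ht, hu]
      exact hst j k hne
    have hJ2 : J (z1 * u) z2 := by
      intro t ht h2
      rw [ih2.1] at h2
      have hkt : k = t := Option.some_injective _ h2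
      subst hkt
      by_cases hu1 : u = 1
      · rw [hu1, mul_one, ih1.2] at ht
        exact hne (Option.some_injective _ ht)
      · rw [en_mul hu1 hJ1, en, hu, mul_inv_rev, inv_inv] at ht
        exact hst k j hne.symm ht
    rw [h1, st_mul (mul_ne hz1ne hJ1) hJ2, st_mul hz1ne hJ1, en_mul hz2ne hJ2]
    exact ⟨ih1.1, ih2.2⟩

theorem term {α : MulAut (CoprodI M)} {d : Fin 3 → CoprodI M} (hd : ∀ j, Pos α j (d j))
    (hst : ∀ i k, i ≠ k → st ((d i)⁻¹ * d k) ≠ some i) (k : Fin 3) : d k = d 0 := by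
  obtain ⟨y, hy⟩ := _root_.exists_ne (1 : M k)
  have hxne : α⁻¹ (d 0 * of y * (d 0)⁻¹) ≠ 1 := by
    intro h
    have h1 : d 0 * of y * (d 0)⁻¹ = 1 := by
      rw [← MulAut.apply_inv_self _ α (d 0 * of y * (d 0)⁻¹), h, map_one]
    apply of_ne_one hy
    have h2 : of y = (d 0)⁻¹ * (d 0 * of y * (d 0)⁻¹) * d 0 := by group
    rw [h2, h1]
    group
  obtain ⟨i, j, w, hw⟩ := FJ7.exists_ne hxne
  obtain ⟨h1, h2⟩ := term_aux hd hst w
  obtain ⟨z, hz⟩ : ∃ z, z = (d i)⁻¹ * α w.prod * d j := ⟨_, rfl⟩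
  rw [← hz] at h1 h2
  have h3 : of y = ((d 0)⁻¹ * d i) * z * ((d j)⁻¹ * d 0) := by
    rw [hz, hw, MulAut.apply_inv_self]
    group
  have hen : en ((d 0)⁻¹ * d i) ≠ some i := by
    by_cases h0 : i = 0
    · subst h0
      rw [inv_mul_cancel, en_one]
      simp
    · have := hst i 0 h0
      rwa [en, mul_inv_rev, inv_inv]
  have hst' : st ((d j)⁻¹ * d 0) ≠ some j := by
    by_cases h0 : j = 0
    · subst h0
      rw [inv_mul_cancel, st_one]
      simp
    · exact hst j 0 h0
  have hzne : z ≠ 1 := by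
    rintro rfl
    rw [st_one] at h1
    exact absurd h1 (by simp)
  have hJ1 : J ((d 0)⁻¹ * d i) z := by
    intro t ht h4
    rw [h1] at h4
    rw [ht, h4] at hen
    exact hen rfl
  have hJ2 : J ((d 0)⁻¹ * d i * z) ((d j)⁻¹ * d 0) := by
    intro t ht h4
    rw [en_mul hzne hJ1, h2] at ht
    rw [h4, ht] at hst'
    exact hst' rfl
  have h5 := len_of hy (M := M)
  rw [h3, len_mul hJ2, len_mul hJ1] at h5
  have h6 := len_pos hzne
  have h7 : (d 0)⁻¹ * d i = 1 := eq_one_of_len (by omega)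
  have h8 : (d j)⁻¹ * d 0 = 1 := eq_one_of_len (by omega)
  rw [h7, h8, one_mul, mul_one] at h3
  have h9 := st_of hy
  rw [h3, h1] at h9
  have h10 : i = k := Option.some_injective _ h9
  rw [← h10]
  exact (inv_mul_eq_one.1 h7).symm

theorem mem_range {hQ : ∀ i (x : M i), MulAut.conj x ∈ Q i} : ∀ (n : ℕ) (α : MulAut (CoprodI M))
    (c : Fin 3 → CoprodI M), (∀ j, Pos α j (c j)) → α ∈ SymQ Q hQ → nu c = n →
    α ∈ (Th Q).range := by
  intro n
  induction n using Nat.strong_induction_on with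
  | _ n ih =>
    intro α c hc hα hn
    by_cases h : ∃ i, hd i ((c i)⁻¹ * c (i + 1)) ≠ hd i ((c i)⁻¹ * c (i + 2))
    · obtain ⟨i, hi⟩ := h
      obtain ⟨g, d, hd, hlt⟩ := red_step hc hi
      have h1 := ih (nu d) (by omega) (α * ch i g) d hd (mul_mem hα (ch_symQ Q hQ i g)) rfl
      have h2 : ch i g ∈ (Th Q).range := by
        refine ⟨SemidirectProduct.inr (SemidirectProduct.inl (of g)), ?_⟩
        rw [Th_apply]
        show MulAut.conj (1 : CoprodI M) * (lift ch (of g) * facQ Q 1) = ch i g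
        rw [map_one, map_one, one_mul, mul_one, lift_of]
      have h3 := mul_mem h1 (inv_mem h2)
      rwa [mul_inv_cancel_right] at h3
    · have hdec : ∀ i k : Fin 3, i ≠ k → k = i + 1 ∨ k = i + 2 := by decide
      push Not at h
      obtain ⟨m, hm⟩ : ∃ m : ∀ j, M j, ∀ j, m j = hd j ((c j)⁻¹ * c (j + 1)) :=
        ⟨fun j => hd j ((c j)⁻¹ * c (j + 1)), fun _ => rfl⟩
      have hd' : ∀ j, Pos α j (c j * of (m j)) := fun j => (hc j).mul_of _
      have hst : ∀ i k, i ≠ k → st ((c i * of (m i))⁻¹ * (c k * of (m k))) ≠ some i := by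
        intro i k hik
        apply st_ne_of_hd
        have h1 : (c i * of (m i))⁻¹ * (c k * of (m k)) =
            of (m i)⁻¹ * (((c i)⁻¹ * c k) * of (m k)) := by
          rw [map_inv]
          group
        rw [h1, hd_of_mul, hd_mul_of hik]
        have hk : k = i + 1 ∨ k = i + 2 := hdec i k hik
        rcases hk with rfl | rfl
        · rw [← hm, inv_mul_cancel]
        · rw [← h i, ← hm, inv_mul_cancel]
      have hterm := term (d := fun j => c j * of (m j)) hd' hst
      obtain ⟨p, hp⟩ : ∃ p, p = c 0 * of (m 0) := ⟨_, rfl⟩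
      have hpos : ∀ j, Pos α j p := by
        intro j
        have h1 := hd' j
        have h2 : c j * of (m j) = p := by
          rw [hp]
          exact hterm j
        rwa [h2] at h1
      have hβ : ∀ j, Pos (MulAut.conj p⁻¹ * α) j 1 := by
        intro j
        have h1 := (Pos.conj p⁻¹ j).mul (hpos j)
        have h2 : MulAut.conj p⁻¹ p * p⁻¹ = 1 := by
          rw [MulAut.conj_apply]
          group
        rwa [h2] at h1
      choose φ hφ using fun j => exists_res (hβ j)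
      have hα' : ∀ j (x : M j), α (of x) = p * of (φ j x) * p⁻¹ := by
        intro j x
        rw [← hφ, MulAut.mul_apply, MulAut.conj_apply]
        group
      have hφQ : ∀ j, φ j ∈ Q j := by
        intro j
        obtain ⟨e, ψ, hψ, he⟩ := hα j
        obtain ⟨m, hm⟩ := (pos_of_eq he).unique (hpos j)
        have h1 : φ j = MulAut.conj m⁻¹ * ψ := by
          apply MulEquiv.ext
          intro x
          apply of_injective (M := M) j
          have h2 : of (φ j x) = p⁻¹ * α (of x) * p := by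
            rw [hα']
            group
          rw [h2, he, hm, MulAut.mul_apply, MulAut.conj_apply, inv_inv, map_mul, map_mul, map_inv]
          group
        rw [h1]
        exact mul_mem (hQ j _) hψ
      refine ⟨SemidirectProduct.inl p * SemidirectProduct.inr
        (SemidirectProduct.inr fun j => ⟨φ j, hφQ j⟩), ?_⟩
      rw [map_mul, Th_apply, Th_apply]
      show MulAut.conj p * (lift ch 1 * facQ Q 1) * (MulAut.conj (1 : CoprodI M) * (lift ch 1 *
        facQ Q fun j => ⟨φ j, hφQ j⟩)) = α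
      rw [map_one, map_one, map_one, one_mul, one_mul, one_mul, mul_one]
      apply aut_ext
      intro j x
      rw [MulAut.mul_apply, facQ_of, MulAut.conj_apply, hα']

theorem Th_range (hQ : ∀ i (x : M i), MulAut.conj x ∈ Q i) : (Th Q).range = SymQ Q hQ := by
  apply le_antisymm
  · rintro _ ⟨e, rfl⟩
    rw [Th_apply]
    refine mul_mem (conj_mem Q hQ _) (mul_mem ?_ ?_)
    · have h1 : (lift ch : CoprodI M →* _).range ≤ SymQ Q hQ := by
        apply lift_range_le
        rintro i _ ⟨g, rfl⟩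
        exact ch_symQ Q hQ i g
      exact h1 ⟨_, rfl⟩
    · intro i
      exact ⟨1, (e.right.right i).1, (e.right.right i).2, fun x => by rw [facQ_of]; simp⟩
  · intro α hα
    obtain ⟨c, hc⟩ := sym_pos Q hα
    exact mem_range Q (nu c) α c hc hα rfl

/-- the structure theorem -/
noncomputable def equivSym (hQ : ∀ i (x : M i), MulAut.conj x ∈ Q i) : SymQ Q hQ ≃* E2 Q :=
  (MulEquiv.subgroupCongr (Th_range Q hQ)).symm.trans (MonoidHom.ofInjective (Th_injective Q)).symm

end three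

end Pool.Agent.K7.H87.FJ7
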