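import Pool.Agent.K7.H87.FJ7.Nf

/-!
# Symmetric automorphisms of free products of three groups
-/

set_option autoImplicit false
set_option linter.unusedSectionVars false

namespace Pool.Agent.K7.H87.FJ7

open Monoid Monoid.CoprodI

section gen

variable {ι : Type} {M : ι → Type} [∀ i, Group (M i)]

/-- the factor `M i` of the free product -/
def R (M : ι → Type) [∀ i, Group (M i)] (i : ι) : Subgroup (CoprodI M) :=
  (of : M i →* CoprodI M).range

/-- `α` maps the factor `M i` onto its conjugate `c (M i) c⁻¹` -/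
def Pos (α : MulAut (CoprodI M)) (i : ι) (c : CoprodI M) : Prop :=
  ∀ x, x ∈ R M i ↔ c⁻¹ * α x * c ∈ R M i

theorem Pos.one (i : ι) : Pos (1 : MulAut (CoprodI M)) i 1 := by
  intro x
  rw [inv_one, one_mul, mul_one]
  rfl

theorem Pos.mul {α β : MulAut (CoprodI M)} {i : ι} {c d : CoprodI M} (ha : Pos α i c)
    (hb : Pos β i d) : Pos (α * β) i (α d * c) := by
  intro x
  rw [hb x, ha]
  have : c⁻¹ * α (d⁻¹ * β x * d) * c = (α d * c)⁻¹ * (α * β) x * (α d * c) := by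
    rw [MulAut.mul_apply, map_mul, map_mul, map_inv]
    group
  rw [this]

theorem Pos.inv {α : MulAut (CoprodI M)} {i : ι} {c : CoprodI M} (ha : Pos α i c) :
    Pos α⁻¹ i (α⁻¹ c⁻¹) := by
  intro x
  have h := ha ((α⁻¹ c⁻¹)⁻¹ * α⁻¹ x * α⁻¹ c⁻¹)
  rw [h]
  have : c⁻¹ * α ((α⁻¹ c⁻¹)⁻¹ * α⁻¹ x * α⁻¹ c⁻¹) * c = x := by
    rw [map_mul, map_mul, map_inv, MulAut.apply_inv_self, MulAut.apply_inv_self]
    group
  rw [this]

theorem Pos.mul_of {α : MulAut (CoprodI M)} {i : ι} {c : CoprodI M} (ha : Pos α i c) (m : M i) :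
    Pos α i (c * of m) := by
  intro x
  rw [ha x]
  have hm : of m ∈ R M i := ⟨m, rfl⟩
  have : (c * of m)⁻¹ * α x * (c * of m) = (of m)⁻¹ * (c⁻¹ * α x * c) * of m := by group
  rw [this]
  constructor
  · intro h
    exact mul_mem (mul_mem (inv_mem hm) h) hm
  · intro h
    have h2 := mul_mem (mul_mem hm h) (inv_mem hm)
    have h3 : of m * ((of m)⁻¹ * (c⁻¹ * α x * c) * of m) * (of m)⁻¹ = c⁻¹ * α x * c := by group
    rwa [h3] at h2

theorem Pos.exists_eq {α : MulAut (CoprodI M)} {i : ι} {c : CoprodI M} (ha : Pos α i c) (m : M i) :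
    ∃ n : M i, α (of m) = c * of n * c⁻¹ ∧ (m ≠ 1 → n ≠ 1) := by
  obtain ⟨n, hn⟩ := (ha (of m)).1 ⟨m, rfl⟩
  refine ⟨n, ?_, ?_⟩
  · rw [hn]
    group
  · rintro hm rfl
    rw [map_one] at hn
    apply of_ne_one hm
    apply α.injective
    rw [map_one]
    have : α (of m) = c * (c⁻¹ * α (of m) * c) * c⁻¹ := by group
    rw [this, ← hn]
    group

theorem Pos.exists_pre {α : MulAut (CoprodI M)} {i : ι} {c : CoprodI M} (ha : Pos α i c) (n : M i) :
    ∃ m : M i, α (of m) = c * of n * c⁻¹ := by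
  have h := (ha (α⁻¹ (c * of n * c⁻¹))).2 (by
    rw [MulAut.apply_inv_self]
    refine ⟨n, ?_⟩
    group)
  obtain ⟨m, hm⟩ := h
  exact ⟨m, by rw [hm, MulAut.apply_inv_self]⟩

theorem Pos.unique {α : MulAut (CoprodI M)} {i : ι} [Nontrivial (M i)] {c d : CoprodI M}
    (ha : Pos α i c) (hb : Pos α i d) : ∃ m : M i, d = c * of m := by
  obtain ⟨n, hn⟩ := _root_.exists_ne (1 : M i)
  obtain ⟨m, hm⟩ := hb.exists_pre n
  obtain ⟨k, hk, -⟩ := ha.exists_eq m
  have h1 : (c⁻¹ * d) * of n * (c⁻¹ * d)⁻¹ = of k := by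
    have : (c⁻¹ * d) * of n * (c⁻¹ * d)⁻¹ = c⁻¹ * (d * of n * d⁻¹) * c := by group
    rw [this, ← hm, hk]
    group
  obtain ⟨b, hb⟩ := malnormal hn h1
  exact ⟨b, by rw [← hb]; group⟩

/-- the automorphisms that map each factor onto a conjugate of itself -/
def SymAut (M : ι → Type) [∀ i, Group (M i)] : Subgroup (MulAut (CoprodI M)) where
  carrier := {α | ∀ i, ∃ c, Pos α i c}
  one_mem' := fun i => ⟨1, Pos.one i⟩
  mul_mem' := by
    intro α β ha hb i
    obtain ⟨c, hc⟩ := ha i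
    obtain ⟨d, hd⟩ := hb i
    exact ⟨_, hc.mul hd⟩
  inv_mem' := by
    intro α ha i
    obtain ⟨c, hc⟩ := ha i
    exact ⟨_, hc.inv⟩

/-- the inner automorphisms -/
theorem Pos.conj (p : CoprodI M) (i : ι) : Pos (MulAut.conj p) i p := by
  intro x
  rw [MulAut.conj_apply]
  have : p⁻¹ * (p * x * p⁻¹) * p = x := by group
  rw [this]

/-- the automorphism defined by automorphisms of the factors -/
noncomputable def fac0 (φ : ∀ i, MulAut (M i)) : MulAut (CoprodI M) :=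
  MonoidHom.toMulEquiv (lift fun i => of.comp (φ i).toMonoidHom)
    (lift fun i => of.comp (φ i).symm.toMonoidHom)
    (by
      apply ext_hom
      intro i
      ext x
      simp)
    (by
      apply ext_hom
      intro i
      ext x
      simp)

theorem fac0_of (φ : ∀ i, MulAut (M i)) {i : ι} (x : M i) : fac0 φ (of x) = of (φ i x) :=
  lift_of (fun i => of.comp (φ i).toMonoidHom) x

theorem aut_ext {α β : MulAut (CoprodI M)} (h : ∀ i, ∀ x : M i, α (of x) = β (of x)) : α = β := by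
  apply MulEquiv.toMonoidHom_injective
  apply ext_hom
  intro i
  ext x
  exact h i x

/-- the automorphisms of the factors -/
noncomputable def fac : (∀ i, MulAut (M i)) →* MulAut (CoprodI M) where
  toFun := fac0
  map_one' := aut_ext fun i x => by
    rw [fac0_of]
    rfl
  map_mul' φ ψ := aut_ext fun i x => by
    rw [MulAut.mul_apply, fac0_of, fac0_of, fac0_of]
    rfl

theorem fac_of (φ : ∀ i, MulAut (M i)) {i : ι} (x : M i) : fac φ (of x) = of (φ i x) :=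
  fac0_of φ x

theorem Pos.fac (φ : ∀ i, MulAut (M i)) (i : ι) : Pos (fac φ) i 1 := by
  intro x
  rw [inv_one, one_mul, mul_one]
  constructor
  · rintro ⟨m, rfl⟩
    exact ⟨φ i m, (fac_of φ m).symm⟩
  · rintro ⟨m, hm⟩
    refine ⟨(φ i)⁻¹ m, ?_⟩
    apply (FJ7.fac φ).injective
    rw [← hm, fac_of, MulAut.apply_inv_self]

end gen

/-- ping-pong -/
theorem pp {ι V G : Type} {M : ι → Type} [∀ i, Group (M i)] [Group G] [MulAction G V]
    (f : ∀ i, M i →* G) (X : ι → Set V) (x0 : V) (h1 : ∀ i (m : M i), m ≠ 1 → f i m • x0 ∈ X i)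
    (h2 : ∀ i j, i ≠ j → ∀ m : M i, m ≠ 1 → ∀ x ∈ X j, f i m • x ∈ X i) (x : CoprodI M)
    (hx : x ≠ 1) : ∃ i, lift f x • x0 ∈ X i := by
  obtain ⟨i, j, w, rfl⟩ := FJ7.exists_ne hx
  have key : ∀ {i j : ι} (w : NeWord M i j), lift f w.prod • x0 ∈ X i ∧
      ∀ k, k ≠ j → ∀ x ∈ X k, lift f w.prod • x ∈ X i := by
    intro i j w
    induction w with
    | @singleton i a ha =>
      simp only [NeWord.prod_singleton, lift_of]
      exact ⟨h1 i a ha, fun k hk x hx => h2 i k hk.symm a ha x hx⟩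
    | @append i j k l w1 hne w2 ih1 ih2 =>
      rw [NeWord.append_prod, map_mul]
      refine ⟨?_, fun m hm x hx => ?_⟩
      · rw [mul_smul]
        exact ih1.2 k hne.symm _ ih2.1
      · rw [mul_smul]
        exact ih1.2 k hne.symm _ (ih2.2 m hm x hx)
  exact ⟨i, (key w).1⟩

section three

variable {M : Fin 3 → Type} [∀ i, Group (M i)]

/-- the homomorphism `x ↦ g⁻¹ x g` on the factor `i + 1` and the identity on the others -/
noncomputable def ch0 (i : Fin 3) (g : M i) : CoprodI M →* CoprodI M :=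
  lift fun k => if k = i + 1 then (MulAut.conj (of g)⁻¹).toMonoidHom.comp of else of

theorem ch0_same (i : Fin 3) (g : M i) (x : M (i + 1)) :
    ch0 i g (of x) = (of g)⁻¹ * of x * of g := by
  rw [ch0, lift_of, if_pos rfl]
  show (of g)⁻¹ * of x * ((of g)⁻¹)⁻¹ = _
  rw [inv_inv]

theorem ch0_ne {i j : Fin 3} (h : j ≠ i + 1) (g : M i) (x : M j) : ch0 i g (of x) = of x := by
  rw [ch0, lift_of, if_neg h]

theorem ne_succ (i : Fin 3) : i ≠ i + 1 := by
  fin_cases i <;> decide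

theorem ch0_mul (i : Fin 3) (g h : M i) : (ch0 i g).comp (ch0 i h) = ch0 i (g * h) := by
  apply ext_hom
  intro j
  ext x
  show ch0 i g (ch0 i h (of x)) = ch0 i (g * h) (of x)
  by_cases hj : j = i + 1
  · subst hj
    rw [ch0_same, ch0_same, map_mul, map_mul, map_inv, ch0_same, ch0_ne (ne_succ i), map_mul]
    group
  · rw [ch0_ne hj, ch0_ne hj, ch0_ne hj]

theorem ch0_one (i : Fin 3) : ch0 (M := M) i 1 = MonoidHom.id _ := by
  apply ext_hom
  intro j
  ext x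
  show ch0 i 1 (of x) = of x
  by_cases hj : j = i + 1
  · subst hj
    rw [ch0_same, map_one, inv_one, one_mul, mul_one]
  · rw [ch0_ne hj]

/-- conjugation of the factor `i + 1` by `g⁻¹` in `M i` -/
noncomputable def ch (i : Fin 3) : M i →* MulAut (CoprodI M) where
  toFun g := MonoidHom.toMulEquiv (ch0 i g) (ch0 i g⁻¹)
    (by rw [ch0_mul, inv_mul_cancel, ch0_one]) (by rw [ch0_mul, mul_inv_cancel, ch0_one])
  map_one' := by
    apply MulEquiv.toMonoidHom_injective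
    exact ch0_one i
  map_mul' g h := by
    apply MulEquiv.toMonoidHom_injective
    exact (ch0_mul i g h).symm

theorem ch_same (i : Fin 3) (g : M i) (x : M (i + 1)) :
    ch i g (of x) = (of g)⁻¹ * of x * of g := ch0_same i g x

theorem ch_ne {i j : Fin 3} (h : j ≠ i + 1) (g : M i) (x : M j) : ch i g (of x) = of x :=
  ch0_ne h g x

theorem Pos.ch_same (i : Fin 3) (g : M i) : Pos (ch i g) (i + 1) (of g)⁻¹ := by
  intro x
  constructor
  · rintro ⟨m, rfl⟩
    rw [FJ7.ch_same]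
    exact ⟨m, by group⟩
  · rintro ⟨m, hm⟩
    refine ⟨m, ?_⟩
    apply (ch i g).injective
    rw [FJ7.ch_same, hm]
    group

theorem Pos.ch_ne {i j : Fin 3} (h : j ≠ i + 1) (g : M i) : Pos (ch i g) j 1 := by
  intro x
  rw [inv_one, one_mul, mul_one]
  constructor
  · rintro ⟨m, rfl⟩
    rw [FJ7.ch_ne h]
    exact ⟨m, rfl⟩
  · rintro ⟨m, hm⟩
    refine ⟨m, ?_⟩
    apply (ch i g).injective
    rw [FJ7.ch_ne h, hm]

/-- the automorphisms for which the vertex of `M i` is between the others -/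
def Bt (i : Fin 3) : Set (MulAut (CoprodI M)) :=
  {α | ∃ c : Fin 3 → CoprodI M, (∀ j, Pos α j (c j)) ∧ ∃ k l, k ≠ i ∧ l ≠ i ∧
    hd i ((c i)⁻¹ * c k) ≠ hd i ((c i)⁻¹ * c l)}

variable [∀ i, Nontrivial (M i)]

theorem bt_indep {i k l : Fin 3} (hk : k ≠ i) (hl : l ≠ i) {α : MulAut (CoprodI M)}
    {c d : Fin 3 → CoprodI M} (hc : ∀ j, Pos α j (c j)) (hd' : ∀ j, Pos α j (d j)) :
    hd i ((c i)⁻¹ * c k) = hd i ((c i)⁻¹ * c l) ↔ hd i ((d i)⁻¹ * d k) = hd i ((d i)⁻¹ * d l) := by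
  choose m hm using fun j => (hc j).unique (hd' j)
  have key : ∀ k, k ≠ i → hd i ((d i)⁻¹ * d k) = (m i)⁻¹ * hd i ((c i)⁻¹ * c k) := by
    intro k hk
    have h1 : (d i)⁻¹ * d k = of (m i)⁻¹ * (((c i)⁻¹ * c k) * of (m k)) := by
      rw [hm i, hm k, map_inv]
      group
    rw [h1, hd_of_mul, hd_mul_of hk.symm]
  rw [key k hk, key l hl, mul_right_inj]

theorem not_bt {i k l : Fin 3} (hk : k ≠ i) (hl : l ≠ i) {α : MulAut (CoprodI M)}
    {c : Fin 3 → CoprodI M} (hc : ∀ j, Pos α j (c j)) (h : α ∉ Bt i) :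
    hd i ((c i)⁻¹ * c k) = hd i ((c i)⁻¹ * c l) := by
  by_contra hne
  exact h ⟨c, hc, k, l, hk, hl, hne⟩

theorem bt_disjoint {i j : Fin 3} (hij : i ≠ j) {α : MulAut (CoprodI M)} (hi : α ∈ Bt i) :
    α ∉ Bt j := by
  intro hj
  obtain ⟨c, hc, k, l, hk, hl, h⟩ := hi
  obtain ⟨d, hd', k', l', hk', hl', h'⟩ := hj
  rw [Ne, ← bt_indep hk' hl' hc hd'] at h'
  have hkl : k ≠ l := fun h1 => h (by rw [h1])
  have hkl' : k' ≠ l' := fun h1 => h' (by rw [h1])
  -- `j` is `k` or `l`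
  have key : ∀ l, l ≠ i → l ≠ j → hd i ((c i)⁻¹ * c j) ≠ hd i ((c i)⁻¹ * c l) →
      hd j ((c j)⁻¹ * c i) = hd j ((c j)⁻¹ * c l) := by
    intro l _ _ h2
    have h3 := hd_disjoint hij h2
    have e1 : ((c i)⁻¹ * c j)⁻¹ = (c j)⁻¹ * c i := by group
    have e2 : (c j)⁻¹ * c i * ((c i)⁻¹ * c l) = (c j)⁻¹ * c l := by group
    rwa [e1, e2] at h3
  have hd1 : ∀ a b c d : Fin 3, a ≠ b → c ≠ a → d ≠ a → c ≠ d → b = c ∨ b = d := by decide
  have hd2 : ∀ a b d : Fin 3, a ≠ b → d ≠ a → d ≠ b → ∀ e f : Fin 3, e ≠ b → f ≠ b → e ≠ f →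
      (e = a ∧ f = d) ∨ (e = d ∧ f = a) := by decide
  have hdec : (j = k ∧ ((k' = i ∧ l' = l) ∨ (k' = l ∧ l' = i))) ∨
      (j = l ∧ ((k' = i ∧ l' = k) ∨ (k' = k ∧ l' = i))) := by
    rcases hd1 i j k l hij hk hl hkl with h1 | h1
    · exact Or.inl ⟨h1, hd2 i j l hij hl (by rw [h1]; exact hkl.symm) k' l' hk' hl' hkl'⟩
    · exact Or.inr ⟨h1, hd2 i j k hij hk (by rw [h1]; exact hkl) k' l' hk' hl' hkl'⟩
  rcases hdec with ⟨h1, ⟨h2, h3⟩ | ⟨h2, h3⟩⟩ | ⟨h1, ⟨h2, h3⟩ | ⟨h2, h3⟩⟩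
  · rw [h2, h3] at h'
    exact h' (key l hl (by rw [h1]; exact hkl.symm) (by rw [h1]; exact h))
  · rw [h2, h3] at h'
    exact h' (key l hl (by rw [h1]; exact hkl.symm) (by rw [h1]; exact h)).symm
  · rw [h2, h3] at h'
    exact h' (key k hk (by rw [h1]; exact hkl) (by rw [h1]; exact h.symm))
  · rw [h2, h3] at h'
    exact h' (key k hk (by rw [h1]; exact hkl) (by rw [h1]; exact h.symm)).symm

theorem succ_ne (i : Fin 3) : i + 1 ≠ i ∧ i + 2 ≠ i ∧ i + 2 ≠ i + 1 := by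
  fin_cases i <;> decide

/-- the positions after a partial conjugation -/
theorem pos_move {α : MulAut (CoprodI M)} {c : Fin 3 → CoprodI M} (hc : ∀ j, Pos α j (c j))
    (i : Fin 3) (g : M i) :
    ∀ j, Pos (α * ch i g) j (if j = i + 1 then α (of g)⁻¹ * c j else c j) := by
  intro j
  by_cases h : j = i + 1
  · rw [if_pos h]
    subst h
    exact (hc _).mul (Pos.ch_same i g)
  · rw [if_neg h]
    have := (hc j).mul (Pos.ch_ne h g)
    rwa [map_one, one_mul] at this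

theorem bt_move {α : MulAut (CoprodI M)} {c : Fin 3 → CoprodI M} (hc : ∀ j, Pos α j (c j))
    {i : Fin 3} (h : α ∉ Bt i) {g : M i} (hg : g ≠ 1) : α * ch i g ∈ Bt i := by
  obtain ⟨n, hn, hn1⟩ := (hc i).exists_eq g
  refine ⟨_, pos_move hc i g, i + 1, i + 2, (succ_ne i).1, (succ_ne i).2.1, ?_⟩
  rw [if_pos rfl, if_neg (succ_ne i).1.symm, if_neg (succ_ne i).2.2, map_inv, hn]
  have h1 : (c i)⁻¹ * ((c i * of n * (c i)⁻¹)⁻¹ * c (i + 1)) =
      of n⁻¹ * ((c i)⁻¹ * c (i + 1)) := by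
    rw [map_inv]
    group
  rw [h1, hd_of_mul, not_bt (succ_ne i).2.1 (succ_ne i).1 hc h]
  intro h2
  exact hn1 hg (inv_eq_one.1 (mul_eq_right.1 h2))

theorem one_not_bt (i : Fin 3) : (1 : MulAut (CoprodI M)) ∉ Bt i := by
  rintro ⟨c, hc, k, l, hk, hl, h⟩
  rw [Ne, bt_indep hk hl hc (fun j => Pos.one j)] at h
  exact h rfl

/-- conjugates of the standard automorphisms are not in `Bt` -/
theorem not_bt_of_const {α : MulAut (CoprodI M)} {p : CoprodI M} (hp : ∀ j, Pos α j p) (i : Fin 3) :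
    α ∉ Bt i := by
  rintro ⟨c, hc, k, l, hk, hl, h⟩
  rw [Ne, bt_indep hk hl hc (d := fun _ => p) hp] at h
  exact h rfl

theorem bt_sym {i : Fin 3} {α : MulAut (CoprodI M)} (h : α ∈ Bt i) : ∃ c : Fin 3 → CoprodI M,
    ∀ j, Pos α j (c j) := by
  obtain ⟨c, hc, -⟩ := h
  exact ⟨c, hc⟩

/-- the partial conjugations generate their free product -/
theorem ch_mem {w : CoprodI M} (hw : w ≠ 1) : ∃ i, lift ch w ∈ Bt i := by
  let _ : MulAction (MulAut (CoprodI M)) (MulAut (CoprodI M)) :=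
    { smul := fun β α => α * β⁻¹
      one_smul := fun α => by
        show α * 1⁻¹ = α
        rw [inv_one, mul_one]
      mul_smul := fun β γ α => by
        show α * (β * γ)⁻¹ = α * γ⁻¹ * β⁻¹
        rw [mul_inv_rev, mul_assoc] }
  have h := pp (ch (M := M)) Bt (1 : MulAut (CoprodI M)) ?_ ?_ w⁻¹ (inv_ne_one.2 hw)
  · obtain ⟨i, hi⟩ := h
    refine ⟨i, ?_⟩
    have h2 : (1 : MulAut (CoprodI M)) * (lift ch w⁻¹)⁻¹ ∈ Bt i := hi
    rwa [map_inv, inv_inv, one_mul] at h2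
  · intro i m hm
    show (1 : MulAut (CoprodI M)) * (ch i m)⁻¹ ∈ Bt i
    rw [← map_inv]
    exact bt_move (fun j => Pos.one j) (one_not_bt i) (inv_ne_one.2 hm)
  · intro i j hij m hm α hα
    show α * (ch i m)⁻¹ ∈ Bt i
    rw [← map_inv]
    obtain ⟨c, hc⟩ := bt_sym hα
    exact bt_move hc (bt_disjoint hij.symm hα) (inv_ne_one.2 hm)

end three

end Pool.Agent.K7.H87.FJ7
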